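import Mathlib

/-! Graphs whose adjacency form has spread less than two on the vectors orthogonal to the all-ones
vector, and whose number of edges is divisible appropriately. -/

namespace Pool.Agent.V11126.SpreadLt

open Finset

variable {V : Type*} [Fintype V]

open Classical in
/-- the adjacency form `∑_{i,j} [i ~ j] x_i x_j` -/
noncomputable def Qf (G : SimpleGraph V) (x : V → ℝ) : ℝ :=
  ∑ i, ∑ j, if G.Adj i j then x i * x j else 0

open Classical in
/-- the number of ordered adjacent pairs -/
noncomputable def Dg (G : SimpleGraph V) : ℕ := ∑ i, ∑ j, if G.Adj i j then 1 else 0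

/-- the adjacency form has spread less than `2` on the vectors with sum zero -/
def SL (G : SimpleGraph V) : Prop :=
  ∀ x y : V → ℝ, ∑ i, x i = 0 → ∑ i, y i = 0 → 0 < ∑ i, x i ^ 2 → 0 < ∑ i, y i ^ 2 →
    Qf G x * ∑ i, y i ^ 2 - Qf G y * ∑ i, x i ^ 2 < 2 * (∑ i, x i ^ 2) * ∑ i, y i ^ 2

/-- symmetrisation of an upper triangular pattern -/
def Msym {k : ℕ} (M : Fin k → Fin k → Bool) (a b : Fin k) : Bool :=
  if a < b then M a b else if b < a then M b a else false

/-- the form of a pattern -/
def qf {k : ℕ} (M : Fin k → Fin k → Bool) (c : Fin k → ℤ) : ℤ :=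
  ∑ a, ∑ b, if Msym M a b = true then c a * c b else 0

/-- two integer test vectors show that the spread is at least two -/
def Good {k : ℕ} (M : Fin k → Fin k → Bool) (c c' : Fin k → ℤ) : Prop :=
  ∑ a, c a = 0 ∧ ∑ a, c' a = 0 ∧ 0 < ∑ a, c a ^ 2 ∧ 0 < ∑ a, c' a ^ 2 ∧
    2 * (∑ a, c a ^ 2) * (∑ a, c' a ^ 2) ≤ qf M c * (∑ a, c' a ^ 2) - qf M c' * ∑ a, c a ^ 2

instance {k : ℕ} (M : Fin k → Fin k → Bool) (c c' : Fin k → ℤ) : Decidable (Good M c c') := by
  unfold Good; infer_instance

open Classical in
lemma sum_push {k : ℕ} (f : Fin k → V) (hf : Function.Injective f) (c : Fin k → ℝ) (g : V → ℝ → ℝ)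
    (hg : ∀ v, g v 0 = 0) :
    ∑ v, g v (∑ a, if f a = v then c a else 0) = ∑ a, g (f a) (c a) := by
  have h1 : ∀ a, (∑ a', if f a' = f a then c a' else 0) = c a := by
    intro a
    rw [Finset.sum_eq_single a]
    · simp
    · intro b _ hb
      rw [if_neg (fun h => hb (hf h))]
    · simp
  have h2 : ∀ v, v ∉ Finset.univ.image f → (∑ a, if f a = v then c a else 0) = 0 := by
    intro v hv
    refine Finset.sum_eq_zero fun a _ => ?_
    rw [if_neg]
    intro h
    exact hv (Finset.mem_image.2 ⟨a, Finset.mem_univ _, h⟩)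
  rw [← Finset.sum_subset (Finset.subset_univ (Finset.univ.image f))
    (fun v _ hv => by rw [h2 v hv, hg])]
  rw [Finset.sum_image (fun a _ b _ h => hf h)]
  exact Finset.sum_congr rfl fun a _ => by rw [h1]

lemma msym_iff (G : SimpleGraph V) {k : ℕ} (M : Fin k → Fin k → Bool) (f : Fin k → V)
    (hM : ∀ a b, a < b → (G.Adj (f a) (f b) ↔ M a b = true)) (a b : Fin k) :
    G.Adj (f a) (f b) ↔ Msym M a b = true := by
  unfold Msym
  rcases lt_trichotomy a b with h | h | h
  · rw [if_pos h]; exact hM a b h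
  · subst h; simp
  · rw [if_neg (not_lt.2 h.le), if_pos h, G.adj_comm]; exact hM b a h

lemma inj_of_lt {k : ℕ} (f : Fin k → V) (hf : ∀ a b, a < b → f a ≠ f b) : Function.Injective f := by
  intro a b hab
  rcases lt_trichotomy a b with h | h | h
  · exact absurd hab (hf a b h)
  · exact h
  · exact absurd hab.symm (hf b a h)

/-- forbidden patterns -/
lemma nopat (G : SimpleGraph V) (hG : SL G) {k : ℕ} (M : Fin k → Fin k → Bool) (c c' : Fin k → ℤ)
    (hgood : Good M c c') (f : Fin k → V) (hf : ∀ a b, a < b → f a ≠ f b)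
    (hM : ∀ a b, a < b → (G.Adj (f a) (f b) ↔ M a b = true)) : False := by
  classical
  have hinj := inj_of_lt f hf
  have hMs := msym_iff G M f hM
  obtain ⟨h1, h2, h3, h4, h5⟩ := hgood
  set X : (Fin k → ℤ) → V → ℝ := fun c v => ∑ a, if f a = v then (c a : ℝ) else 0 with hX
  have e0 : ∀ c : Fin k → ℤ, ∑ v, X c v = ((∑ a, c a : ℤ) : ℝ) := by
    intro c
    rw [hX]
    have := sum_push f hinj (fun a => (c a : ℝ)) (fun _ t => t) (fun _ => rfl)
    simpa using this
  have e1 : ∀ c : Fin k → ℤ, ∑ v, X c v ^ 2 = ((∑ a, c a ^ 2 : ℤ) : ℝ) := by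
    intro c
    rw [hX]
    have := sum_push f hinj (fun a => (c a : ℝ)) (fun _ t => t ^ 2) (fun _ => by simp)
    simpa using this
  have e2 : ∀ c : Fin k → ℤ, Qf G (X c) = ((qf M c : ℤ) : ℝ) := by
    intro c
    unfold Qf qf
    have h1 : ∀ i t, (∑ j, if G.Adj i j then t * X c j else 0)
        = ∑ b, if G.Adj i (f b) then t * (c b : ℝ) else 0 := by
      intro i t
      rw [hX]
      exact sum_push f hinj (fun a => (c a : ℝ)) (fun j s => if G.Adj i j then t * s else 0)
        (fun _ => by simp)
    have h2 : ∑ i, ∑ j, (if G.Adj i j then X c i * X c j else 0)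
        = ∑ i, ∑ b, if G.Adj i (f b) then X c i * (c b : ℝ) else 0 :=
      Finset.sum_congr rfl fun i _ => h1 i (X c i)
    rw [h2]
    have h3 := sum_push f hinj (fun a => (c a : ℝ))
      (fun i s => ∑ b, if G.Adj i (f b) then s * (c b : ℝ) else 0) (fun _ => by simp)
    have h4 : ∑ i, ∑ b, (if G.Adj i (f b) then X c i * (c b : ℝ) else 0)
        = ∑ a, ∑ b, if G.Adj (f a) (f b) then (c a : ℝ) * (c b : ℝ) else 0 := h3
    rw [h4]
    push_cast
    refine Finset.sum_congr rfl fun a _ => Finset.sum_congr rfl fun b _ => ?_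
    by_cases h : G.Adj (f a) (f b)
    · rw [if_pos h, if_pos ((hMs a b).1 h)]
    · rw [if_neg h, if_neg (fun h' => h ((hMs a b).2 h'))]
  have := hG (X c) (X c') (by rw [e0, h1]; simp) (by rw [e0, h2]; simp)
    (by rw [e1]; exact_mod_cast h3) (by rw [e1]; exact_mod_cast h4)
  rw [e1, e1, e2, e2] at this
  have h5' : ((2 * (∑ a, c a ^ 2) * (∑ a, c' a ^ 2) : ℤ) : ℝ)
      ≤ ((qf M c * (∑ a, c' a ^ 2) - qf M c' * ∑ a, c a ^ 2 : ℤ) : ℝ) := by exact_mod_cast h5
  push_cast at h5' this
  linarith

/-- the form of the complement -/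
lemma Qf_compl (G : SimpleGraph V) (x : V → ℝ) (hx : ∑ i, x i = 0) :
    Qf Gᶜ x = - ∑ i, x i ^ 2 - Qf G x := by
  classical
  have key : Qf Gᶜ x + Qf G x + ∑ i, x i ^ 2 = ∑ i, ∑ j, x i * x j := by
    unfold Qf
    have h2 : ∑ i, x i ^ 2 = ∑ i, ∑ j, if i = j then x i * x j else 0 := by
      refine Finset.sum_congr rfl fun i _ => ?_
      rw [Finset.sum_ite_eq]
      simp [sq]
    rw [h2, ← Finset.sum_add_distrib, ← Finset.sum_add_distrib]
    refine Finset.sum_congr rfl fun i _ => ?_
    rw [← Finset.sum_add_distrib, ← Finset.sum_add_distrib]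
    refine Finset.sum_congr rfl fun j _ => ?_
    have hc : Gᶜ.Adj i j ↔ (i ≠ j ∧ ¬ G.Adj i j) := SimpleGraph.compl_adj ..
    by_cases h : i = j
    · have h1 : ¬ Gᶜ.Adj i j := fun h' => (hc.1 h').1 h
      have h2 : ¬ G.Adj i j := fun h' => h'.ne h
      rw [if_neg h1, if_neg h2, if_pos h]; ring
    · by_cases h' : G.Adj i j
      · have h1 : ¬ Gᶜ.Adj i j := fun h'' => (hc.1 h'').2 h'
        rw [if_neg h1, if_pos h', if_neg h]; ring
      · have h1 : Gᶜ.Adj i j := hc.2 ⟨h, h'⟩
        rw [if_pos h1, if_neg h', if_neg h]; ring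
  have h1 : ∑ i, ∑ j, x i * x j = 0 := by
    have : ∀ i, ∑ j, x i * x j = 0 := fun i => by rw [← Finset.mul_sum, hx, mul_zero]
    simp [this]
  linarith

lemma SL_compl (G : SimpleGraph V) (hG : SL G) : SL Gᶜ := by
  intro x y hx hy hx2 hy2
  have := hG y x hy hx hy2 hx2
  rw [Qf_compl G x hx, Qf_compl G y hy]
  nlinarith

lemma Dg_compl (G : SimpleGraph V) :
    Dg Gᶜ + Dg G + Fintype.card V = Fintype.card V * Fintype.card V := by
  classical
  unfold Dg
  have h2 : Fintype.card V = ∑ i : V, ∑ j : V, (if i = j then 1 else 0) := by simp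
  have h3 : Fintype.card V * Fintype.card V = ∑ i : V, ∑ j : V, 1 := by simp
  conv_lhs => rw [h2]
  rw [h3, ← Finset.sum_add_distrib, ← Finset.sum_add_distrib]
  refine Finset.sum_congr rfl fun i _ => ?_
  rw [← Finset.sum_add_distrib, ← Finset.sum_add_distrib]
  refine Finset.sum_congr rfl fun j _ => ?_
  have hc : Gᶜ.Adj i j ↔ (i ≠ j ∧ ¬ G.Adj i j) := SimpleGraph.compl_adj ..
  by_cases h : i = j
  · have h1 : ¬ Gᶜ.Adj i j := fun h' => (hc.1 h').1 h
    have h2 : ¬ G.Adj i j := fun h' => h'.ne h
    rw [if_neg h1, if_neg h2, if_pos h]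
  · by_cases h' : G.Adj i j
    · have h1 : ¬ Gᶜ.Adj i j := fun h'' => (hc.1 h'').2 h'
      rw [if_neg h1, if_pos h', if_neg h]
    · have h1 : Gᶜ.Adj i j := hc.2 ⟨h, h'⟩
      rw [if_pos h1, if_neg h', if_neg h]

/-- no alternating four-cycle -/
lemma noA4 (G : SimpleGraph V) (hG : SL G) (x p y q : V) (hxy : x ≠ y) (hpq : p ≠ q)
    (hxq : x ≠ q) (hyp : y ≠ p)
    (h1 : G.Adj x p) (h2 : G.Adj y q) (h3 : ¬ G.Adj x q) (h4 : ¬ G.Adj y p) : False := by
  classical
  have hxp := h1.ne
  have hyq := h2.ne
  have good : ∀ b1 b2 : Bool, Good ![![false, true, b1, false], ![false, false, false, b2],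
      ![false, false, false, true], ![false, false, false, false]] ![1, 1, -1, -1]
      ![1, -1, -1, 1] := by decide
  refine nopat G hG _ _ _ (good (decide (G.Adj x y)) (decide (G.Adj p q))) ![x, p, y, q] ?_ ?_
  · intro a b hab
    fin_cases a <;> fin_cases b <;> simp_all
    exact fun h => hyp h.symm
  · intro a b hab
    have h4' : ¬ G.Adj p y := fun h => h4 h.symm
    fin_cases a <;> fin_cases b <;> simp_all

/-- there is a vertex adjacent to all the other vertices which are not isolated -/
lemma exists_dom [Nonempty V] (G : SimpleGraph V) (hG : SL G) :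
    ∃ u, ∀ v w, G.Adj v w → w ≠ u → G.Adj u w := by
  classical
  obtain ⟨u, -, hu⟩ := Finset.exists_max_image (Finset.univ : Finset V)
    (fun v => (Finset.univ.filter fun w => G.Adj v w).card) Finset.univ_nonempty
  refine ⟨u, fun v w hvw hwu => ?_⟩
  by_contra huw
  have hvu : v ≠ u := by rintro rfl; exact huw hvw
  -- there is a neighbour `y ≠ v` of `u` not adjacent to `v`
  have hy : ∃ y, G.Adj u y ∧ y ≠ v ∧ ¬ G.Adj v y := by
    by_contra hcon
    push Not at hcon
    have hmax := hu v (Finset.mem_univ v)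
    have hsub : (Finset.univ.filter fun w => G.Adj u w).erase v
        ⊆ ((Finset.univ.filter fun w => G.Adj v w).erase w) := by
      intro y hy
      rw [Finset.mem_erase, Finset.mem_filter] at hy
      rw [Finset.mem_erase, Finset.mem_filter]
      exact ⟨by rintro rfl; exact huw hy.2.2, Finset.mem_univ _, hcon y hy.2.2 hy.1⟩
    have hwmem : w ∈ (Finset.univ.filter fun w => G.Adj v w) := by simp [hvw]
    by_cases hadj : G.Adj u v
    · have hvmem : v ∈ (Finset.univ.filter fun w => G.Adj u w) := by simp [hadj]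
      have hsub2 : (Finset.univ.filter fun w => G.Adj u w).erase v
          ⊆ ((Finset.univ.filter fun w => G.Adj v w).erase w).erase u := by
        intro y hy
        rw [Finset.mem_erase]
        refine ⟨?_, hsub hy⟩
        rintro rfl
        rw [Finset.mem_erase, Finset.mem_filter] at hy
        exact G.loopless.irrefl y hy.2.2
      have humem : u ∈ ((Finset.univ.filter fun w => G.Adj v w).erase w) := by
        rw [Finset.mem_erase, Finset.mem_filter]
        exact ⟨Ne.symm hwu, Finset.mem_univ _, hadj.symm⟩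
      have c := Finset.card_le_card hsub2
      rw [Finset.card_erase_of_mem hvmem, Finset.card_erase_of_mem humem,
        Finset.card_erase_of_mem hwmem] at c
      have p1 : 0 < (Finset.univ.filter fun w => G.Adj u w).card := Finset.card_pos.2 ⟨v, hvmem⟩
      have p2 : 1 < (Finset.univ.filter fun w => G.Adj v w).card := by
        have := Finset.card_pos.2 ⟨u, humem⟩
        rw [Finset.card_erase_of_mem hwmem] at this
        omega
      omega
    · have hvmem : v ∉ (Finset.univ.filter fun w => G.Adj u w) := by simp [hadj]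
      rw [Finset.erase_eq_of_notMem hvmem] at hsub
      have c := Finset.card_le_card hsub
      rw [Finset.card_erase_of_mem hwmem] at c
      have p2 : 0 < (Finset.univ.filter fun w => G.Adj v w).card := Finset.card_pos.2 ⟨w, hwmem⟩
      omega
  obtain ⟨y, huy, hyv, hvy⟩ := hy
  refine noA4 G hG u y v w hvu.symm ?_ hwu.symm hyv.symm huy hvw huw hvy
  rintro rfl
  exact huw huy

/-- the number of ordered adjacent pairs, computed from an exhaustive list of vertices -/
lemma Dg_pattern (G : SimpleGraph V) {k : ℕ} (M : Fin k → Fin k → Bool) (f : Fin k → V)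
    (hf : ∀ a b, a < b → f a ≠ f b)
    (hM : ∀ a b, a < b → (G.Adj (f a) (f b) ↔ M a b = true)) (hk : Fintype.card V = k) :
    Dg G = ∑ a, ∑ b, if Msym M a b = true then 1 else 0 := by
  classical
  have hinj := inj_of_lt f hf
  have hMs := msym_iff G M f hM
  have hbij : Function.Bijective f :=
    (Fintype.bijective_iff_injective_and_card f).2 ⟨hinj, by simp [hk]⟩
  unfold Dg
  rw [← hbij.sum_comp]
  refine Finset.sum_congr rfl fun a _ => ?_
  rw [← hbij.sum_comp]
  refine Finset.sum_congr rfl fun b _ => ?_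
  by_cases h : G.Adj (f a) (f b)
  · rw [if_pos h, if_pos ((hMs a b).1 h)]
  · rw [if_neg h, if_neg (fun h' => h ((hMs a b).2 h'))]

/-- `G` consists of a path `p - u - q` and an isolated vertex `z` -/
def P3K1 (G : SimpleGraph V) (u p q z : V) : Prop :=
  u ≠ p ∧ u ≠ q ∧ u ≠ z ∧ p ≠ q ∧ p ≠ z ∧ q ≠ z ∧ G.Adj u p ∧ G.Adj u q ∧ ¬ G.Adj p q ∧
    ¬ G.Adj u z ∧ ¬ G.Adj p z ∧ ¬ G.Adj q z

open Classical in
lemma Dg_int (G : SimpleGraph V) (F : V → V → ℤ)
    (hF : ∀ i j, (G.Adj i j → F i j = 1) ∧ (¬ G.Adj i j → F i j = 0)) :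
    (Dg G : ℤ) = ∑ i, ∑ j, F i j := by
  unfold Dg
  push_cast
  refine Finset.sum_congr rfl fun i _ => Finset.sum_congr rfl fun j _ => ?_
  by_cases h : G.Adj i j
  · rw [if_pos h, (hF i j).1 h]
  · rw [if_neg h, (hF i j).2 h]

/-- single edge -/
lemma Dg_edge (G : SimpleGraph V) (u p : V) (hup : G.Adj u p)
    (h : ∀ w, w ≠ u → w ≠ p → ∀ v, ¬ G.Adj w v) : Dg G = 2 := by
  classical
  have hne := hup.ne
  have : (Dg G : ℤ) = 2 := by
    rw [Dg_int G (fun i j => (if i = u then 1 else 0) * (if j = p then 1 else 0)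
      + (if i = p then 1 else 0) * (if j = u then 1 else 0))]
    · simp only [Finset.sum_add_distrib, ← Finset.mul_sum, Finset.sum_ite_eq', Finset.mem_univ,
        if_true, mul_one]
      norm_num
    · intro i j
      constructor
      · intro hij
        have hi : i = u ∨ i = p := by
          by_contra hc; push Not at hc; exact h i hc.1 hc.2 j hij
        have hj : j = u ∨ j = p := by
          by_contra hc; push Not at hc; exact h j hc.1 hc.2 i hij.symm
        rcases hi with rfl | rfl <;> rcases hj with rfl | rfl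
        · exact absurd hij (G.loopless.irrefl _)
        · simp [hne]
        · simp [hne.symm]
        · exact absurd hij (G.loopless.irrefl _)
      · intro hij
        have h1 : ¬ (i = u ∧ j = p) := by rintro ⟨rfl, rfl⟩; exact hij hup
        have h2 : ¬ (i = p ∧ j = u) := by rintro ⟨rfl, rfl⟩; exact hij hup.symm
        by_cases a1 : i = u <;> by_cases a2 : j = p <;> by_cases a3 : i = p <;>
          by_cases a4 : j = u <;> simp_all
  exact_mod_cast this

/-- a clique and an isolated vertex -/
lemma Dg_clique (G : SimpleGraph V) (z : V) (hz : ∀ v, ¬ G.Adj z v)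
    (h : ∀ v w, v ≠ z → w ≠ z → v ≠ w → G.Adj v w) :
    (Dg G : ℤ) = (Fintype.card V - 1) * (Fintype.card V - 2) := by
  classical
  rw [Dg_int G (fun i j => (1 - if i = z then 1 else 0) * ((1 - if j = z then 1 else 0)
      - if j = i then 1 else 0))]
  · have h1 : ∀ i : V, ∑ j : V, (1 - if i = z then (1 : ℤ) else 0) * ((1 - if j = z then 1 else 0)
      - if j = i then 1 else 0) = (1 - if i = z then 1 else 0) * (Fintype.card V - 2) := by
      intro i
      rw [← Finset.mul_sum]
      simp only [Finset.sum_sub_distrib, Finset.sum_ite_eq', Finset.mem_univ, if_true]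
      simp
      left; ring
    simp only [h1, ← Finset.sum_mul]
    simp only [Finset.sum_sub_distrib, Finset.sum_ite_eq', Finset.mem_univ, if_true]
    simp
  · intro i j
    constructor
    · intro hij
      have h1 : i ≠ z := by rintro rfl; exact hz _ hij
      have h2 : j ≠ z := by rintro rfl; exact hz _ hij.symm
      simp [h1, h2, hij.ne.symm]
    · intro hij
      by_cases h1 : i = z
      · simp [h1]
      by_cases h2 : j = z
      · subst h2
        simp [h1, Ne.symm h1]
      have h3 : j = i := by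
        by_contra h3
        exact hij (h i j h1 h2 (Ne.symm h3))
      subst h3
      simp [h1]

/-- a star and an isolated vertex -/
lemma Dg_star (G : SimpleGraph V) (u z : V) (huz : u ≠ z) (hz : ∀ v, ¬ G.Adj z v)
    (hu : ∀ v, v ≠ u → v ≠ z → G.Adj u v)
    (h : ∀ v w, v ≠ u → w ≠ u → ¬ G.Adj v w) :
    (Dg G : ℤ) = 2 * (Fintype.card V - 2) := by
  classical
  rw [Dg_int G (fun i j => (if i = u then 1 else 0) * ((1 - if j = u then 1 else 0)
      - if j = z then 1 else 0) + (if j = u then 1 else 0) * ((1 - if i = u then 1 else 0)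
      - if i = z then 1 else 0))]
  · have h1 : ∀ i : V, ∑ j : V, ((if i = u then (1 : ℤ) else 0) * ((1 - if j = u then 1 else 0)
      - if j = z then 1 else 0) + (if j = u then 1 else 0) * ((1 - if i = u then 1 else 0)
      - if i = z then 1 else 0)) = (if i = u then 1 else 0) * (Fintype.card V - 2)
      + ((1 - if i = u then 1 else 0) - if i = z then 1 else 0) := by
      intro i
      rw [Finset.sum_add_distrib, ← Finset.mul_sum, ← Finset.sum_mul]
      simp only [Finset.sum_sub_distrib, Finset.sum_ite_eq', Finset.mem_univ, if_true]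
      simp
      split_ifs <;> ring
    simp only [h1]
    rw [Finset.sum_add_distrib, ← Finset.sum_mul]
    simp only [Finset.sum_sub_distrib, Finset.sum_ite_eq', Finset.mem_univ, if_true]
    simp
    ring
  · intro i j
    constructor
    · intro hij
      have h1 : i ≠ z := by rintro rfl; exact hz _ hij
      have h2 : j ≠ z := by rintro rfl; exact hz _ hij.symm
      by_cases h3 : i = u
      · subst h3
        simp [h2, hij.ne.symm]
      · have h4 : j = u := by
          by_contra h4; exact h i j h3 h4 hij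
        subst h4
        simp [h1, h3]
    · intro hij
      by_cases h3 : i = u
      · subst h3
        by_cases h4 : j = i
        · subst h4; simp [huz]
        · have h5 : j = z := by
            by_contra h5; exact hij (hu j h4 h5)
          subst h5
          simp [h4]
      · by_cases h4 : j = u
        · subst h4
          have h5 : i = z := by
            by_contra h5; exact hij (hu i h3 h5).symm
          subst h5
          simp [h3]
        · simp [h3, h4]

section patterns

variable (G : SimpleGraph V) (hG : SL G)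

include hG

lemma pat_z3 (u p q z z2 z3 : V) (hupn : u ≠ p) (huz : u ≠ z) (hpz : p ≠ z) (hqu : q ≠ u)
    (hqp : q ≠ p) (huq : G.Adj u q) (hup : G.Adj u p) (hqz : q ≠ z) (hz2z : z2 ≠ z)
    (hz2' : ∀ v, ¬ G.Adj v z2) (h1 : u ≠ z2) (h2 : p ≠ z2) (h3 : q ≠ z2) (hz3z : z3 ≠ z)
    (hz3z2 : z3 ≠ z2) (hz3' : ∀ v, ¬ G.Adj v z3) (h4 : u ≠ z3) (h5 : p ≠ z3) (h6 : q ≠ z3)
    (hz' : ∀ v, ¬ G.Adj v z) : False := by
  have a1 := hqu.symm
  have a2 := hqp.symm
  have a3 := hz2z.symm
  have a4 := hz3z.symm
  have a5 := hz3z2.symm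
  by_cases hpq : G.Adj p q
  · refine nopat G hG ![![false, true, true, false, false, false],
      ![false, false, true, false, false, false], ![false, false, false, false, false, false],
      ![false, false, false, false, false, false], ![false, false, false, false, false, false],
      ![false, false, false, false, false, false]] ![-1, -1, -1, 1, 1, 1] ![-1, 0, 1, 0, 0, 0]
      (by decide) ![u, p, q, z, z2, z3] ?_ ?_
    · clear hG
      intro a b hab
      fin_cases a <;> fin_cases b <;> simp_all
    · clear hG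
      intro a b hab
      fin_cases a <;> fin_cases b <;> simp_all
  · refine nopat G hG ![![false, true, true, false, false, false],
      ![false, false, false, false, false, false], ![false, false, false, false, false, false],
      ![false, false, false, false, false, false], ![false, false, false, false, false, false],
      ![false, false, false, false, false, false]] ![-3, -2, -2, 2, 2, 3] ![-3, 2, 2, -1, 0, 0]
      (by decide) ![u, p, q, z, z2, z3] ?_ ?_
    · clear hG
      intro a b hab
      fin_cases a <;> fin_cases b <;> simp_all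
    · clear hG
      intro a b hab
      fin_cases a <;> fin_cases b <;> simp_all

lemma pat_F1 (u w x y z : V) (hxy : x ≠ y) (hnadj : ¬ G.Adj x y) (hxz : x ≠ z) (hyz : y ≠ z)
    (hxu : x ≠ u) (hyu : y ≠ u) (hwu : w ≠ u) (hwx : G.Adj w x) (hwy : G.Adj w y) (hwz : w ≠ z)
    (huz : u ≠ z) (huw : G.Adj u w) (hux : G.Adj u x) (huy : G.Adj u y)
    (hz' : ∀ v, ¬ G.Adj v z) : False := by
  have a1 := hxu.symm
  have a2 := hyu.symm
  have a3 := hwu.symm
  have a4 := hwx.ne
  have a5 := hwy.ne
  refine nopat G hG ![![false, true, true, true, false], ![false, false, true, true, false],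
      ![false, false, false, false, false], ![false, false, false, false, false],
      ![false, false, false, false, false]] ![-2, -2, -1, -1, 6] ![-3, -3, 3, 3, 0]
      (by decide) ![u, w, x, y, z] ?_ ?_
  · clear hG
    intro a b hab
    fin_cases a <;> fin_cases b <;> simp_all
  · clear hG
    intro a b hab
    fin_cases a <;> fin_cases b <;> simp_all

lemma pat_F2 (u x y w s : V) (hxu : x ≠ u) (hyu : y ≠ u) (hxy : G.Adj x y) (hwu : w ≠ u)
    (hwx : w ≠ x) (hwnx : ¬ G.Adj x w) (hwy : w ≠ y) (hwny : ¬ G.Adj y w) (hsu : s ≠ u)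
    (hsx : s ≠ x) (hsy : s ≠ y) (hsw : s ≠ w) (hsnw : ¬ G.Adj s w) (hxs : ¬ G.Adj x s)
    (hys : ¬ G.Adj y s) (hux : G.Adj u x) (huy : G.Adj u y) (hus : G.Adj u s) (huw : G.Adj u w) :
    False := by
  have a1 := hxu.symm
  have a2 := hyu.symm
  have a3 := hwu.symm
  have a4 := hwx.symm
  have a5 := hwy.symm
  have a6 := hsu.symm
  have a7 := hsx.symm
  have a8 := hsy.symm
  have a9 := hsw.symm
  have a10 := hxy.ne
  have a11 : ¬ G.Adj w s := fun h => hsnw h.symm
  refine nopat G hG ![![false, true, true, true, true], ![false, false, true, false, false],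
      ![false, false, false, false, false], ![false, false, false, false, false],
      ![false, false, false, false, false]] ![-1, 3, 3, -3, -2] ![-3, 0, 1, 1, 1]
      (by decide) ![u, x, y, w, s] ?_ ?_
  · clear hG
    intro a b hab
    fin_cases a <;> fin_cases b <;> simp_all
  · clear hG
    intro a b hab
    fin_cases a <;> fin_cases b <;> simp_all

lemma pat_K (u x y s w z : V) (hxu : x ≠ u) (hyu : y ≠ u) (hxy : G.Adj x y) (hxz : x ≠ z)
    (hyz : y ≠ z) (hwu : w ≠ u) (hwz : w ≠ z)
    (hwx : w ≠ x) (hwnx : ¬ G.Adj x w) (hwy : w ≠ y) (hwny : ¬ G.Adj y w) (hsu : s ≠ u)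
    (hsz : s ≠ z) (hsx : s ≠ x) (hsy : s ≠ y) (hsw : s ≠ w) (hsnw : ¬ G.Adj s w)
    (hxs : G.Adj x s) (hys : G.Adj y s) (huz : u ≠ z) (hux : G.Adj u x) (huy : G.Adj u y)
    (hus : G.Adj u s) (huw : G.Adj u w) (hz' : ∀ v, ¬ G.Adj v z) : False := by
  have a1 := hxu.symm
  have a2 := hyu.symm
  have a3 := hwu.symm
  have a4 := hwx.symm
  have a5 := hwy.symm
  have a6 := hsu.symm
  have a7 := hsx.symm
  have a8 := hsy.symm
  have a9 := hsw.symm
  have a10 := hxy.ne
  refine nopat G hG ![![false, true, true, true, true, false],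
      ![false, false, true, true, false, false], ![false, false, false, true, false, false],
      ![false, false, false, false, false, false], ![false, false, false, false, false, false],
      ![false, false, false, false, false, false]] ![0, -2, -2, -2, 3, 3] ![-3, 0, 1, 1, 2, -1]
      (by decide) ![u, x, y, s, w, z] ?_ ?_
  · clear hG
    intro a b hab
    fin_cases a <;> fin_cases b <;> simp_all
  · clear hG
    intro a b hab
    fin_cases a <;> fin_cases b <;> simp_all

lemma pat_r (u p q r z z2 : V) (hupn : u ≠ p) (huz : u ≠ z) (hpz : p ≠ z) (hqu : q ≠ u)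
    (hqp : q ≠ p) (huq : G.Adj u q) (hup : G.Adj u p) (hqz : q ≠ z) (hz2z : z2 ≠ z)
    (hz2' : ∀ v, ¬ G.Adj v z2) (h1 : u ≠ z2) (h2 : p ≠ z2) (h3 : q ≠ z2) (hru : r ≠ u)
    (hrp : r ≠ p) (hrq : r ≠ q) (hur : G.Adj u r) (hrz : r ≠ z) (hrz2 : r ≠ z2)
    (hz' : ∀ v, ¬ G.Adj v z) : False := by
  classical
  have a1 := hqu.symm
  have a2 := hqp.symm
  have a3 := hz2z.symm
  have a4 := hru.symm
  have a5 := hrp.symm
  have a6 := hrq.symm
  have good : ∀ b1 b2 b3 : Bool, ∃ c c', Good ![![false, true, true, true, false, false],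
      ![false, false, b1, b2, false, false], ![false, false, false, b3, false, false],
      ![false, false, false, false, false, false], ![false, false, false, false, false, false],
      ![false, false, false, false, false, false]] c c' := by
    intro b1 b2 b3
    cases b1 <;> cases b2 <;> cases b3
    · exact ⟨![-3, -2, -1, -1, 3, 4], ![-3, 1, 1, 1, 0, 0], by decide⟩
    · exact ⟨![-2, 0, -2, -2, 3, 3], ![-3, 2, 1, 1, -1, 0], by decide⟩
    · exact ⟨![-2, -2, 0, -2, 3, 3], ![-3, 1, 2, 1, -1, 0], by decide⟩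
    · exact ⟨![-2, -1, -1, -2, 3, 3], ![-3, 3, 3, -3, 0, 0], by decide⟩
    · exact ⟨![-2, -2, -2, 0, 3, 3], ![-3, 1, 1, 2, -1, 0], by decide⟩
    · exact ⟨![-2, -1, -2, -1, 3, 3], ![-3, 3, -3, 3, 0, 0], by decide⟩
    · exact ⟨![-2, -2, -1, -1, 3, 3], ![-3, -3, 3, 3, 0, 0], by decide⟩
    · exact ⟨![-1, -1, -1, -1, 2, 2], ![-1, 1, 0, 0, 0, 0], by decide⟩
  obtain ⟨c, c', hgood⟩ := good (decide (G.Adj p q)) (decide (G.Adj p r)) (decide (G.Adj q r))
  refine nopat G hG _ c c' hgood ![u, p, q, r, z, z2] ?_ ?_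
  · clear hG hgood good
    intro a b hab
    fin_cases a <;> fin_cases b <;> simp_all
  · clear hG hgood good
    intro a b hab
    fin_cases a <;> fin_cases b <;> simp_all

omit hG

lemma pat_5 (u p q z z2 : V) (hupn : u ≠ p) (huz : u ≠ z) (hpz : p ≠ z) (hqu : q ≠ u)
    (hqp : q ≠ p) (huq : G.Adj u q) (hup : G.Adj u p) (hqz : q ≠ z) (hz2z : z2 ≠ z)
    (hz2' : ∀ v, ¬ G.Adj v z2) (h1 : u ≠ z2) (h2 : p ≠ z2) (h3 : q ≠ z2)
    (hz' : ∀ v, ¬ G.Adj v z) (hcard : Fintype.card V = 5) (hdvd : Fintype.card V ∣ Dg G) :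
    False := by
  have a1 := hqu.symm
  have a2 := hqp.symm
  have a3 := hz2z.symm
  rw [hcard] at hdvd
  by_cases hpq : G.Adj p q
  · rw [Dg_pattern G ![![false, true, true, false, false], ![false, false, true, false, false],
      ![false, false, false, false, false], ![false, false, false, false, false],
      ![false, false, false, false, false]] ![u, p, q, z, z2] ?_ ?_ hcard] at hdvd
    · revert hdvd; decide
    · clear hdvd hcard
      intro a b hab
      fin_cases a <;> fin_cases b <;> simp_all
    · clear hdvd hcard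
      intro a b hab
      fin_cases a <;> fin_cases b <;> simp_all
  · rw [Dg_pattern G ![![false, true, true, false, false], ![false, false, false, false, false],
      ![false, false, false, false, false], ![false, false, false, false, false],
      ![false, false, false, false, false]] ![u, p, q, z, z2] ?_ ?_ hcard] at hdvd
    · revert hdvd; decide
    · clear hdvd hcard
      intro a b hab
      fin_cases a <;> fin_cases b <;> simp_all
    · clear hdvd hcard
      intro a b hab
      fin_cases a <;> fin_cases b <;> simp_all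

lemma pat_paw (u x y w z : V) (hxu : x ≠ u) (hyu : y ≠ u) (hxy : G.Adj x y) (hxz : x ≠ z)
    (hyz : y ≠ z) (hwu : w ≠ u) (hwz : w ≠ z)
    (hwx : w ≠ x) (hwnx : ¬ G.Adj x w) (hwy : w ≠ y) (hwny : ¬ G.Adj y w) (huz : u ≠ z)
    (hux : G.Adj u x) (huy : G.Adj u y) (huw : G.Adj u w) (hz' : ∀ v, ¬ G.Adj v z)
    (hcard : Fintype.card V = 5) (hdvd : Fintype.card V ∣ Dg G) : False := by
  have a1 := hxu.symm
  have a2 := hyu.symm
  have a3 := hwu.symm
  have a4 := hwx.symm
  have a5 := hwy.symm
  have a10 := hxy.ne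
  rw [hcard] at hdvd
  rw [Dg_pattern G ![![false, true, true, true, false], ![false, false, true, false, false],
      ![false, false, false, false, false], ![false, false, false, false, false],
      ![false, false, false, false, false]] ![u, x, y, w, z] ?_ ?_ hcard] at hdvd
  · revert hdvd; decide
  · clear hdvd hcard
    intro a b hab
    fin_cases a <;> fin_cases b <;> simp_all
  · clear hdvd hcard
    intro a b hab
    fin_cases a <;> fin_cases b <;> simp_all

end patterns

theorem classify (G : SimpleGraph V) (hG : SL G) (hn : 3 ≤ Fintype.card V) (z : V)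
    (hz : ∀ v, ¬ G.Adj z v) (hne : ∃ a b, G.Adj a b) (hdvd : Fintype.card V ∣ Dg G) :
    Fintype.card V = 4 ∧ ∃ u p q, P3K1 G u p q z := by
  classical
  have : Nonempty V := ⟨z⟩
  obtain ⟨u, hu⟩ := exists_dom G hG
  have hz' : ∀ v, ¬ G.Adj v z := fun v h => hz v h.symm
  obtain ⟨a, b, hab⟩ := hne
  -- `u` has a neighbour
  obtain ⟨p, hup⟩ : ∃ p, G.Adj u p := by
    by_cases h : b = u
    · subst h; exact ⟨a, hab.symm⟩
    · exact ⟨b, hu a b hab h⟩
  have huz : u ≠ z := by rintro rfl; exact hz p hup
  have hpz : p ≠ z := by rintro rfl; exact hz u hup.symm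
  have hupn : u ≠ p := hup.ne
  have hndvd : ∀ m : ℤ, 0 < m → m < 3 → ¬ ((Fintype.card V : ℤ) ∣ m) := by
    intro m hm hm3 h
    have := Int.le_of_dvd hm h
    omega
  have hdvdZ : (Fintype.card V : ℤ) ∣ (Dg G : ℤ) := by exact_mod_cast hdvd
  by_cases hA : ∀ w, w ≠ u → w ≠ p → ∀ v, ¬ G.Adj w v
  · rw [Dg_edge G u p hup hA] at hdvdZ
    exact absurd hdvdZ (hndvd 2 (by norm_num) (by norm_num))
  push Not at hA
  obtain ⟨q, hqu, hqp, v0, hqv⟩ := hA
  have huq : G.Adj u q := hu v0 q hqv.symm hqu
  have hqz : q ≠ z := by rintro rfl; exact hz _ hqv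
  by_cases hB1 : ∃ z2, z2 ≠ z ∧ ∀ v, ¬ G.Adj z2 v
  · exfalso
    obtain ⟨z2, hz2z, hz2⟩ := hB1
    have hz2' : ∀ v, ¬ G.Adj v z2 := fun v h => hz2 v h.symm
    have h1 : u ≠ z2 := by rintro rfl; exact hz2 _ hup
    have h2 : p ≠ z2 := by rintro rfl; exact hz2 _ hup.symm
    have h3 : q ≠ z2 := by rintro rfl; exact hz2 _ huq.symm
    by_cases hB1a : ∃ z3, z3 ≠ z ∧ z3 ≠ z2 ∧ ∀ v, ¬ G.Adj z3 v
    · obtain ⟨z3, hz3z, hz3z2, hz3⟩ := hB1a
      have hz3' : ∀ v, ¬ G.Adj v z3 := fun v h => hz3 v h.symm
      have h4 : u ≠ z3 := by rintro rfl; exact hz3 _ hup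
      have h5 : p ≠ z3 := by rintro rfl; exact hz3 _ hup.symm
      have h6 : q ≠ z3 := by rintro rfl; exact hz3 _ huq.symm
      exact pat_z3 G hG u p q z z2 z3 hupn huz hpz hqu hqp huq hup hqz hz2z hz2' h1 h2 h3 hz3z hz3z2
        hz3' h4 h5 h6 hz'
    · by_cases hB1b : ∃ r, r ≠ u ∧ r ≠ p ∧ r ≠ q ∧ ∃ v, G.Adj r v
      · obtain ⟨r, hru, hrp, hrq, v1, hrv⟩ := hB1b
        have hur : G.Adj u r := hu v1 r hrv.symm hru
        have hrz : r ≠ z := by rintro rfl; exact hz _ hrv
        have hrz2 : r ≠ z2 := by rintro rfl; exact hz2 _ hrv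
        exact pat_r G hG u p q r z z2 hupn huz hpz hqu hqp huq hup hqz hz2z hz2' h1 h2 h3 hru hrp
          hrq hur hrz hrz2 hz'
      · push Not at hB1a hB1b
        have hcard : Fintype.card V = 5 := by
          have huniv : (Finset.univ : Finset V) = {u, p, q, z, z2} := by
            ext v
            simp only [Finset.mem_univ, Finset.mem_insert, Finset.mem_singleton, true_iff]
            by_cases hv : ∀ w, ¬ G.Adj v w
            · by_cases e1 : v = z
              · simp [e1]
              · by_cases e2 : v = z2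
                · simp [e2]
                · obtain ⟨w, hw⟩ := hB1a v e1 e2
                  exact absurd hw (hv w)
            · push Not at hv
              obtain ⟨w, hw⟩ := hv
              by_contra hc
              push Not at hc
              exact hB1b v hc.1 hc.2.1 hc.2.2.1 w hw
          have hq' := hqz
          rw [← Finset.card_univ, huniv, Finset.card_insert_of_notMem, Finset.card_insert_of_notMem,
            Finset.card_insert_of_notMem, Finset.card_insert_of_notMem, Finset.card_singleton]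
          · simp [hz2z.symm]
          · simp [hqz, h3]
          · simp [hqp.symm, hpz, h2]
          · simp [hupn, hqu.symm, huz, h1]
        exact pat_5 G u p q z z2 hupn huz hpz hqu hqp huq hup hqz hz2z hz2' h1 h2 h3 hz' hcard hdvd
  · push Not at hB1
    -- all vertices other than `u`, `z` are adjacent to `u`
    have hall : ∀ v, v ≠ u → v ≠ z → G.Adj u v := by
      intro v hvu hvz
      obtain ⟨w, hw⟩ := hB1 v hvz
      exact hu w v hw.symm hvu
    by_cases hB2a : ∀ v w, v ≠ z → w ≠ z → v ≠ w → G.Adj v w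
    · exfalso
      rw [Dg_clique G z hz hB2a] at hdvdZ
      refine hndvd 2 (by norm_num) (by norm_num) ?_
      have e : (2 : ℤ) = (Fintype.card V - 1) * (Fintype.card V - 2)
        - Fintype.card V * (Fintype.card V - 3) := by ring
      rw [e]
      exact dvd_sub hdvdZ (dvd_mul_right _ _)
    push Not at hB2a
    obtain ⟨c, d, hcz, hdz, hcd, hcdn⟩ := hB2a
    have hcu : c ≠ u := by
      rintro rfl
      exact hcdn (hall d hcd.symm hdz)
    have hdu : d ≠ u := by
      rintro rfl
      exact hcdn (hall c hcd hcz).symm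
    -- nonadjacent vertices have no common neighbour except `u`
    have hF1 : ∀ x y w, x ≠ y → ¬ G.Adj x y → x ≠ z → y ≠ z → x ≠ u → y ≠ u → w ≠ u →
        G.Adj w x → G.Adj w y → False := by
      intro x y w hxy hnadj hxz hyz hxu hyu hwu hwx hwy
      have hwz : w ≠ z := by rintro rfl; exact hz _ hwx
      exact pat_F1 G hG u w x y z hxy hnadj hxz hyz hxu hyu hwu hwx hwy hwz huz
        (hall w hwu hwz) (hall x hxu hxz) (hall y hyu hyz) hz'
    by_cases hB2c : ∃ x y, x ≠ u ∧ y ≠ u ∧ G.Adj x y
    · exfalso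
      obtain ⟨x, y, hxu, hyu, hxy⟩ := hB2c
      have hxz : x ≠ z := by rintro rfl; exact hz _ hxy
      have hyz : y ≠ z := by rintro rfl; exact hz _ hxy.symm
      obtain ⟨w, hwu, hwz, hwx, hwnx⟩ : ∃ w, w ≠ u ∧ w ≠ z ∧ w ≠ x ∧ ¬ G.Adj x w := by
        by_contra hcon
        push Not at hcon
        by_cases hcx : c = x
        · subst hcx
          exact hcdn (hcon d hdu hdz hcd.symm)
        · by_cases hdx : d = x
          · subst hdx
            exact hcdn (hcon c hcu hcz hcd).symm
          · exact hF1 c d x hcd hcdn hcz hdz hcu hdu hxu (hcon c hcu hcz hcx) (hcon d hdu hdz hdx)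
      have hwy : w ≠ y := by rintro rfl; exact hwnx hxy
      have hwny : ¬ G.Adj y w := fun h => hF1 x w y hwx.symm hwnx hxz hwz hxu hwu hyu hxy.symm h
      by_cases hs : ∃ s, s ≠ u ∧ s ≠ z ∧ s ≠ x ∧ s ≠ y ∧ s ≠ w
      · obtain ⟨s, hsu, hsz, hsx, hsy, hsw⟩ := hs
        have hsnw : ¬ G.Adj s w := by
          intro hsw'
          have h1 : ¬ G.Adj s x := fun h => hF1 x w s hwx.symm hwnx hxz hwz hxu hwu hsu h hsw'
          have h2 : ¬ G.Adj s y := fun h => hF1 y w s hwy.symm hwny hyz hwz hyu hwu hsu h hsw'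
          exact noA4 G hG x y s w hsx.symm hwy.symm hwx.symm hsy hxy hsw' hwnx h2
        have hsxy : G.Adj x s ↔ G.Adj y s := by
          constructor
          · intro h
            by_contra h'
            exact hF1 y s x hsy.symm h' hyz hsz hyu hsu hxu hxy h
          · intro h
            by_contra h'
            exact hF1 x s y hsx.symm h' hxz hsz hxu hsu hyu hxy.symm h
        by_cases hxs : G.Adj x s
        · exact pat_K G hG u x y s w z hxu hyu hxy hxz hyz hwu hwz hwx hwnx hwy hwny hsu hsz hsx hsy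
            hsw hsnw hxs (hsxy.1 hxs) huz (hall x hxu hxz) (hall y hyu hyz) (hall s hsu hsz)
            (hall w hwu hwz) hz'
        · exact pat_F2 G hG u x y w s hxu hyu hxy hwu hwx hwnx hwy hwny hsu hsx hsy hsw hsnw hxs
            (fun h => hxs (hsxy.2 h)) (hall x hxu hxz) (hall y hyu hyz) (hall s hsu hsz)
            (hall w hwu hwz)
      · push Not at hs
        have hcard : Fintype.card V = 5 := by
          have huniv : (Finset.univ : Finset V) = {u, x, y, w, z} := by
            ext v
            simp only [Finset.mem_univ, Finset.mem_insert, Finset.mem_singleton, true_iff]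
            by_contra hc
            push Not at hc
            exact hc.2.2.2.1 (hs v hc.1 hc.2.2.2.2 hc.2.1 hc.2.2.1)
          rw [← Finset.card_univ, huniv, Finset.card_insert_of_notMem, Finset.card_insert_of_notMem,
            Finset.card_insert_of_notMem, Finset.card_insert_of_notMem, Finset.card_singleton]
          · simp [hwz]
          · simp [hwy.symm, hyz]
          · simp [hxy.ne, hwx.symm, hxz]
          · simp [hxu.symm, hyu.symm, hwu.symm, huz]
        exact pat_paw G u x y w z hxu hyu hxy hxz hyz hwu hwz hwx hwnx hwy hwny huz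
          (hall x hxu hxz) (hall y hyu hyz) (hall w hwu hwz) hz' hcard hdvd
    · push Not at hB2c
      rw [Dg_star G u z huz hz hall hB2c] at hdvdZ
      have h4 : (Fintype.card V : ℤ) ∣ 4 := by
        have e : (4 : ℤ) = Fintype.card V * 2 - 2 * (Fintype.card V - 2) := by ring
        rw [e]
        exact dvd_sub (dvd_mul_right _ _) hdvdZ
      have h4' : Fintype.card V ∣ 4 := by exact_mod_cast h4
      have hle := Nat.le_of_dvd (by norm_num) h4'
      have hne3 : Fintype.card V ≠ 3 := by
        intro h; rw [h] at h4'; revert h4'; decide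
      refine ⟨by omega, u, c, d, hcu.symm, hdu.symm, huz, hcd, hcz, hdz, hall c hcu hcz,
        hall d hdu hdz, hcdn, hz' u, hz' c, hz' d⟩

end Pool.Agent.V11126.SpreadLt
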