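import Mathlib

/-! Laplacian spread of digraphs: definitions and the structure of balanced digraphs of spread at
most one. -/

namespace Pool.Agent.V11126.LapSpread

open Matrix

open Classical in
/-- The 0-1 adjacency matrix of the digraph with arc relation `A`. -/
noncomputable def adj {V : Type*} (A : V → V → Prop) : Matrix V V ℝ :=
  Matrix.of fun i j => if A i j then 1 else 0

open Classical in
/-- The Laplacian `D - A`, where `D` is the diagonal matrix of out-degrees. -/
noncomputable def lap {V : Type*} [Fintype V] (A : V → V → Prop) : Matrix V V ℝ :=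
  Matrix.diagonal (fun i => ∑ j, adj A i j) - adj A

/-- The set of values `xᵀ L x` over the real unit vectors `x` orthogonal to the all-ones vector. -/
noncomputable def values {V : Type*} [Fintype V] (A : V → V → Prop) : Set ℝ :=
  {t | ∃ x : V → ℝ, ∑ i, x i = 0 ∧ ∑ i, x i ^ 2 = 1 ∧ t = x ⬝ᵥ (lap A *ᵥ x)}

/-- `α(Γ)`, the minimum of the values. -/
noncomputable def alpha {V : Type*} [Fintype V] (A : V → V → Prop) : ℝ := sInf (values A)

/-- `β(Γ)`, the maximum of the values. -/
noncomputable def beta {V : Type*} [Fintype V] (A : V → V → Prop) : ℝ := sSup (values A)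

/-- The Laplacian spread `β(Γ) - α(Γ)`. -/
noncomputable def spread {V : Type*} [Fintype V] (A : V → V → Prop) : ℝ := beta A - alpha A

/-- Every vertex has in-degree equal to out-degree. -/
def IsBalanced {V : Type*} (A : V → V → Prop) : Prop :=
  ∀ v, Set.ncard {w | A v w} = Set.ncard {w | A w v}

/-- Every vertex has out-degree `k` and in-degree `k`. -/
def IsDiregular {V : Type*} (k : ℕ) (A : V → V → Prop) : Prop :=
  ∀ v, Set.ncard {w | A v w} = k ∧ Set.ncard {w | A w v} = k

/-- The complement: all ordered pairs of distinct vertices that are not arcs. -/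
def complDigraph {V : Type*} (A : V → V → Prop) : V → V → Prop := fun v w => v ≠ w ∧ ¬ A v w

open Classical in
lemma adj_apply {V : Type*} (A : V → V → Prop) (i j : V) : adj A i j = if A i j then 1 else 0 := rfl

lemma adj_pos {V : Type*} {A : V → V → Prop} {i j : V} (h : A i j) : adj A i j = 1 := by
  rw [adj_apply, if_pos h]

lemma adj_neg {V : Type*} {A : V → V → Prop} {i j : V} (h : ¬ A i j) : adj A i j = 0 := by
  rw [adj_apply, if_neg h]

lemma sum_adj_out {V : Type*} [Fintype V] (A : V → V → Prop) (i : V) :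
    ∑ j, adj A i j = (Set.ncard {w | A i w} : ℝ) := by
  classical
  simp only [adj_apply]
  rw [Finset.sum_boole, Set.ncard_eq_toFinset_card']
  simp

lemma sum_adj_in {V : Type*} [Fintype V] (A : V → V → Prop) (i : V) :
    ∑ j, adj A j i = (Set.ncard {w | A w i} : ℝ) := by
  classical
  simp only [adj_apply]
  rw [Finset.sum_boole, Set.ncard_eq_toFinset_card']
  simp

lemma quad {V : Type*} [Fintype V] (A : V → V → Prop) (x : V → ℝ) :
    x ⬝ᵥ (lap A *ᵥ x) = ∑ i, ∑ j, adj A i j * (x i * (x i - x j)) := by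
  classical
  unfold lap
  rw [Matrix.sub_mulVec, dotProduct_sub]
  unfold dotProduct
  rw [← Finset.sum_sub_distrib]
  refine Finset.sum_congr rfl fun i _ => ?_
  rw [Matrix.mulVec_diagonal]
  have h1 : (adj A *ᵥ x) i = ∑ j, adj A i j * x j := rfl
  rw [h1, Finset.sum_mul, Finset.mul_sum, Finset.mul_sum, ← Finset.sum_sub_distrib]
  refine Finset.sum_congr rfl fun j _ => ?_
  ring

lemma adj_abs {V : Type*} (A : V → V → Prop) (i j : V) : |adj A i j| ≤ 1 := by
  classical
  rw [adj_apply]; split_ifs <;> simp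

lemma bdd {V : Type*} [Fintype V] (A : V → V → Prop) :
    BddAbove (values A) ∧ BddBelow (values A) := by
  classical
  have key : ∀ t ∈ values A, |t| ≤ ∑ i : V, ∑ j : V, (2 : ℝ) := by
    rintro t ⟨x, -, h1, rfl⟩
    have hx : ∀ i, |x i| ≤ 1 := by
      intro i
      have : x i ^ 2 ≤ 1 := by
        rw [← h1]
        exact Finset.single_le_sum (f := fun i => x i ^ 2) (fun i _ => sq_nonneg _) (Finset.mem_univ i)
      rw [abs_le]
      constructor <;> nlinarith
    rw [quad]
    refine (Finset.abs_sum_le_sum_abs _ _).trans (Finset.sum_le_sum fun i _ => ?_)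
    refine (Finset.abs_sum_le_sum_abs _ _).trans (Finset.sum_le_sum fun j _ => ?_)
    rw [abs_mul, abs_mul]
    have h2 : |x i - x j| ≤ 2 := by
      refine (abs_sub _ _).trans ?_
      have := hx i; have := hx j; linarith
    have h3 := hx i
    have h4 := abs_nonneg (x i)
    have h5 := abs_nonneg (x i - x j)
    have h6 := adj_abs A i j
    have h7 : |x i| * |x i - x j| ≤ 2 := by nlinarith
    have h8 : 0 ≤ |x i| * |x i - x j| := by positivity
    have h9 := abs_nonneg (adj A i j)
    nlinarith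
  refine ⟨⟨_, fun t ht => (abs_le.1 (key t ht)).2⟩, ⟨_, fun t ht => (abs_le.1 (key t ht)).1⟩⟩

lemma mem_values {V : Type*} [Fintype V] (A : V → V → Prop) (v : V → ℝ) (N : ℝ) (hN : 0 < N)
    (h0 : ∑ i, v i = 0) (h1 : ∑ i, v i ^ 2 = N) : (v ⬝ᵥ (lap A *ᵥ v)) / N ∈ values A := by
  refine ⟨fun i => (Real.sqrt N)⁻¹ * v i, ?_, ?_, ?_⟩
  · rw [← Finset.mul_sum, h0, mul_zero]
  · simp only [mul_pow]
    rw [← Finset.mul_sum, h1, inv_pow, Real.sq_sqrt hN.le]
    field_simp
  · have : (fun i => (Real.sqrt N)⁻¹ * v i) = (Real.sqrt N)⁻¹ • v := by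
      funext i; simp
    rw [this, Matrix.mulVec_smul, smul_dotProduct, dotProduct_smul, smul_eq_mul, smul_eq_mul,
      ← mul_assoc, ← mul_inv, Real.mul_self_sqrt hN.le]
    field_simp

/-- homogeneous form of the bounds defining `alpha` and `beta` -/
lemma quad_bounds {V : Type*} [Fintype V] (A : V → V → Prop) (v : V → ℝ) (h0 : ∑ i, v i = 0) :
    alpha A * ∑ i, v i ^ 2 ≤ v ⬝ᵥ (lap A *ᵥ v) ∧ v ⬝ᵥ (lap A *ᵥ v) ≤ beta A * ∑ i, v i ^ 2 := by
  rcases (Finset.sum_nonneg fun i (_ : i ∈ Finset.univ) => sq_nonneg (v i)).eq_or_lt with h | h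
  · have hv : v = 0 := by
      funext i
      have := (Finset.sum_eq_zero_iff_of_nonneg fun i (_ : i ∈ Finset.univ) => sq_nonneg (v i)).1
        h.symm i (Finset.mem_univ i)
      simpa using this
    subst hv
    simp
  · have hm := mem_values A v _ h h0 rfl
    have h1 : alpha A ≤ _ := csInf_le (bdd A).2 hm
    have h2 : _ ≤ beta A := le_csSup (bdd A).1 hm
    constructor
    · rwa [le_div_iff₀ h] at h1
    · rwa [div_le_iff₀ h] at h2

/-- if the quadratic form is a constant multiple of the norm, the spread is zero -/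
lemma spread_zero {V : Type*} [Fintype V] (A : V → V → Prop) (c : ℝ)
    (h : ∀ x : V → ℝ, ∑ i, x i = 0 → x ⬝ᵥ (lap A *ᵥ x) = c * ∑ i, x i ^ 2) : spread A = 0 := by
  unfold spread alpha beta
  rcases (values A).eq_empty_or_nonempty with h0 | h0
  · rw [h0]; simp
  · have : values A = {c} := by
      apply Set.eq_singleton_iff_nonempty_unique_mem.2
      refine ⟨h0, ?_⟩
      rintro t ⟨x, hx0, hx1, rfl⟩
      rw [h x hx0, hx1, mul_one]
    rw [this]
    simp

/-! ### balanced digraphs -/

/-- the number of arcs between `i` and `j` -/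
noncomputable def b {V : Type*} (A : V → V → Prop) (i j : V) : ℝ := adj A i j + adj A j i

lemma b_comm {V : Type*} (A : V → V → Prop) (i j : V) : b A i j = b A j i := add_comm _ _

lemma b_cases {V : Type*} (A : V → V → Prop) (i j : V) :
    b A i j = 0 ∨ b A i j = 1 ∨ b A i j = 2 := by
  classical
  unfold b
  rw [adj_apply, adj_apply]
  split_ifs <;> norm_num

lemma quad_balanced {V : Type*} [Fintype V] (A : V → V → Prop) (hb : IsBalanced A) (x : V → ℝ) :
    x ⬝ᵥ (lap A *ᵥ x) = (1 / 4) * ∑ i, ∑ j, b A i j * (x i - x j) ^ 2 := by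
  rw [quad]
  have hd : ∀ i, ∑ j, adj A i j = ∑ j, adj A j i := by
    intro i
    rw [sum_adj_out, sum_adj_in, hb i]
  have e1 : ∑ i, ∑ j, adj A i j * x i ^ 2 = ∑ i, ∑ j, adj A i j * x j ^ 2 := by
    rw [Finset.sum_comm (f := fun i j => adj A i j * x j ^ 2)]
    refine Finset.sum_congr rfl fun i _ => ?_
    rw [← Finset.sum_mul, ← Finset.sum_mul, hd]
  have e2 : ∑ i, ∑ j, b A i j * (x i - x j) ^ 2
      = ∑ i, ∑ j, adj A i j * (x i - x j) ^ 2 + ∑ i, ∑ j, adj A i j * (x i - x j) ^ 2 := by
    have : ∑ i, ∑ j, adj A i j * (x i - x j) ^ 2 = ∑ i, ∑ j, adj A j i * (x i - x j) ^ 2 := by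
      rw [Finset.sum_comm]
      refine Finset.sum_congr rfl fun i _ => Finset.sum_congr rfl fun j _ => ?_
      ring
    conv_rhs => rw [this]
    conv_rhs => arg 1; rw [← this]
    rw [← Finset.sum_add_distrib]
    refine Finset.sum_congr rfl fun i _ => ?_
    rw [← Finset.sum_add_distrib]
    refine Finset.sum_congr rfl fun j _ => ?_
    unfold b
    ring
  have e3 : ∑ i, ∑ j, adj A i j * (x i - x j) ^ 2 = ∑ i, ∑ j, adj A i j * x i ^ 2
      + ∑ i, ∑ j, adj A i j * x j ^ 2 - 2 * ∑ i, ∑ j, adj A i j * (x i * x j) := by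
    rw [← Finset.sum_add_distrib, Finset.mul_sum, ← Finset.sum_sub_distrib]
    refine Finset.sum_congr rfl fun i _ => ?_
    rw [← Finset.sum_add_distrib, Finset.mul_sum, ← Finset.sum_sub_distrib]
    refine Finset.sum_congr rfl fun j _ => ?_
    ring
  have e4 : ∑ i, ∑ j, adj A i j * (x i * (x i - x j)) = ∑ i, ∑ j, adj A i j * x i ^ 2
      - ∑ i, ∑ j, adj A i j * (x i * x j) := by
    rw [← Finset.sum_sub_distrib]
    refine Finset.sum_congr rfl fun i _ => ?_
    rw [← Finset.sum_sub_distrib]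
    refine Finset.sum_congr rfl fun j _ => ?_
    ring
  rw [e2, e3, e4, ← e1]
  ring

/-- the sum of squared differences -/
lemma sum_sq_diff {V : Type*} [Fintype V] (x : V → ℝ) (h0 : ∑ i, x i = 0) :
    ∑ i, ∑ j, (x i - x j) ^ 2 = 2 * Fintype.card V * ∑ i, x i ^ 2 := by
  have : ∀ i, ∑ j, (x i - x j) ^ 2 = Fintype.card V * x i ^ 2 + ∑ j, x j ^ 2 := by
    intro i
    have : ∀ j, (x i - x j) ^ 2 = x i ^ 2 - 2 * x i * x j + x j ^ 2 := fun j => by ring
    simp only [this]
    rw [Finset.sum_add_distrib, Finset.sum_sub_distrib, ← Finset.mul_sum, h0]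
    simp
  simp only [this]
  rw [Finset.sum_add_distrib, ← Finset.mul_sum]
  simp
  ring

/-- if `b` is constant off the diagonal, the spread is zero -/
lemma spread_const {V : Type*} [Fintype V] (A : V → V → Prop) (hb : IsBalanced A) (c : ℝ)
    (h : ∀ i j, i ≠ j → b A i j = c) : spread A = 0 := by
  refine spread_zero A (c * Fintype.card V / 2) fun x hx => ?_
  rw [quad_balanced A hb]
  have : ∀ i j, b A i j * (x i - x j) ^ 2 = c * (x i - x j) ^ 2 := by
    intro i j
    by_cases hij : i = j
    · subst hij; simp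
    · rw [h i j hij]
  simp only [this, ← Finset.mul_sum]
  rw [sum_sq_diff x hx]
  ring

/-- the operator `S x`, with `S` the symmetric part of the Laplacian (balanced case) -/
noncomputable def opS {V : Type*} [Fintype V] (A : V → V → Prop) (x : V → ℝ) (i : V) : ℝ :=
  ∑ j, b A i j / 2 * (x i - x j)

lemma inner_opS {V : Type*} [Fintype V] (A : V → V → Prop) (x y : V → ℝ) :
    ∑ i, y i * opS A x i = (1 / 4) * ∑ i, ∑ j, b A i j * ((x i - x j) * (y i - y j)) := by
  have e1 : ∑ i, y i * opS A x i = ∑ i, ∑ j, b A i j / 2 * (x i - x j) * y i := by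
    refine Finset.sum_congr rfl fun i _ => ?_
    unfold opS
    rw [Finset.mul_sum]
    refine Finset.sum_congr rfl fun j _ => ?_
    ring
  have e2 : ∑ i, ∑ j, b A i j / 2 * (x i - x j) * y i
      = ∑ i, ∑ j, -(b A i j / 2 * (x i - x j) * y j) := by
    rw [Finset.sum_comm]
    refine Finset.sum_congr rfl fun i _ => Finset.sum_congr rfl fun j _ => ?_
    rw [b_comm A j i]; ring
  have e3 : (1 / 4) * ∑ i, ∑ j, b A i j * ((x i - x j) * (y i - y j))
      = (1 / 2) * (∑ i, ∑ j, b A i j / 2 * (x i - x j) * y i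
        + ∑ i, ∑ j, -(b A i j / 2 * (x i - x j) * y j)) := by
    rw [← Finset.sum_add_distrib, Finset.mul_sum, Finset.mul_sum]
    refine Finset.sum_congr rfl fun i _ => ?_
    rw [← Finset.sum_add_distrib, Finset.mul_sum, Finset.mul_sum]
    refine Finset.sum_congr rfl fun j _ => ?_
    ring
  rw [e3, e1, ← e2]
  ring

lemma sum_opS {V : Type*} [Fintype V] (A : V → V → Prop) (x : V → ℝ) : ∑ i, opS A x i = 0 := by
  have := inner_opS A x (fun _ => 1)
  simpa using this

lemma opS_symm {V : Type*} [Fintype V] (A : V → V → Prop) (x y : V → ℝ) :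
    ∑ i, y i * opS A x i = ∑ i, x i * opS A y i := by
  rw [inner_opS, inner_opS]
  congr 1
  refine Finset.sum_congr rfl fun i _ => Finset.sum_congr rfl fun j _ => ?_
  ring

lemma opS_add {V : Type*} [Fintype V] (A : V → V → Prop) (x y : V → ℝ) (s : ℝ) (i : V) :
    opS A (fun k => x k / 2 + s * y k) i = opS A x i / 2 + s * opS A y i := by
  unfold opS
  rw [Finset.mul_sum, Finset.sum_div, ← Finset.sum_add_distrib]
  refine Finset.sum_congr rfl fun j _ => ?_
  ring

/-- norm bound for the centred operator when the spread is at most one -/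
lemma norm_bound {V : Type*} [Fintype V] (A : V → V → Prop) (hb : IsBalanced A)
    (hs : spread A ≤ 1) (x : V → ℝ) (hx : ∑ i, x i = 0) :
    ∑ i, (opS A x i - (alpha A + beta A) / 2 * x i) ^ 2 ≤ (1 / 4) * ∑ i, x i ^ 2 := by
  set g := (alpha A + beta A) / 2 with hg
  set m : V → ℝ := fun i => opS A x i - g * x i with hm
  have hm0 : ∑ i, m i = 0 := by
    simp only [hm]
    rw [Finset.sum_sub_distrib, ← Finset.mul_sum, hx, sum_opS]; ring
  have hQ : ∀ z : V → ℝ, ∑ i, z i = 0 →
      |∑ i, z i * (opS A z i - g * z i)| ≤ (1 / 2) * ∑ i, z i ^ 2 := by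
    intro z hz
    have h1 := quad_bounds A z hz
    have h2 : z ⬝ᵥ (lap A *ᵥ z) = ∑ i, z i * opS A z i := by
      rw [quad_balanced A hb, inner_opS]
      congr 1
      refine Finset.sum_congr rfl fun i _ => Finset.sum_congr rfl fun j _ => ?_
      ring
    have h3 : ∑ i, z i * (opS A z i - g * z i) = ∑ i, z i * opS A z i - g * ∑ i, z i ^ 2 := by
      rw [Finset.mul_sum, ← Finset.sum_sub_distrib]
      refine Finset.sum_congr rfl fun i _ => ?_
      ring
    have h4 : 0 ≤ ∑ i, z i ^ 2 := Finset.sum_nonneg fun i _ => sq_nonneg _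
    unfold spread at hs
    rw [h3, ← h2, abs_le]
    constructor
    · have := h1.1
      rw [hg]
      nlinarith
    · have := h1.2
      rw [hg]
      nlinarith
  have hp := hQ (fun k => x k / 2 + 1 * m k) (by
    rw [Finset.sum_add_distrib, ← Finset.mul_sum, ← Finset.sum_div, hx, hm0]; ring)
  have hn := hQ (fun k => x k / 2 + (-1) * m k) (by
    rw [Finset.sum_add_distrib, ← Finset.mul_sum, ← Finset.sum_div, hx, hm0]; ring)
  simp only [opS_add] at hp hn
  have hsym := opS_symm A x m
  have hdiff : ∑ i, (x i / 2 + 1 * m i) * (opS A x i / 2 + 1 * opS A m i - g * (x i / 2 + 1 * m i))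
      - ∑ i, (x i / 2 + (-1) * m i) *
        (opS A x i / 2 + (-1) * opS A m i - g * (x i / 2 + (-1) * m i))
      = 2 * ∑ i, m i ^ 2 := by
    have e : 2 * ∑ i, m i ^ 2 = ∑ i, (m i * opS A x i) + ∑ i, (x i * opS A m i)
        - 2 * ∑ i, g * x i * m i := by
      rw [← hsym, Finset.mul_sum, Finset.mul_sum, ← Finset.sum_add_distrib,
        ← Finset.sum_sub_distrib]
      refine Finset.sum_congr rfl fun i _ => ?_
      simp only [hm]; ring
    rw [e, Finset.mul_sum, ← Finset.sum_add_distrib,
        ← Finset.sum_sub_distrib, ← Finset.sum_sub_distrib]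
    refine Finset.sum_congr rfl fun i _ => ?_
    ring
  have hnorm : (1 / 2) * ∑ i, (x i / 2 + 1 * m i) ^ 2 + (1 / 2) * ∑ i, (x i / 2 + (-1) * m i) ^ 2
      = (1 / 4) * ∑ i, x i ^ 2 + ∑ i, m i ^ 2 := by
    rw [Finset.mul_sum, Finset.mul_sum, Finset.mul_sum, ← Finset.sum_add_distrib,
      ← Finset.sum_add_distrib]
    refine Finset.sum_congr rfl fun i _ => ?_
    ring
  have h1 := (abs_le.1 hp).2
  have h2 := (abs_le.1 hn).1
  have : 2 * ∑ i, m i ^ 2 ≤ (1 / 4) * ∑ i, x i ^ 2 + ∑ i, m i ^ 2 := by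
    rw [← hdiff, ← hnorm]
    linarith
  linarith

/-- the excess of the pair `i, j` over one arc, zero on the diagonal -/
noncomputable def cc {V : Type*} [DecidableEq V] (A : V → V → Prop) (i j : V) : ℝ :=
  if j = i then 0 else b A i j - 1

/-- the row inequality -/
lemma row_bound {V : Type*} [Fintype V] [DecidableEq V] (A : V → V → Prop) (hb : IsBalanced A)
    (hs : spread A ≤ 1) (i : V) (n T S U : ℝ) (hn : n = Fintype.card V) (hn0 : 0 < n)
    (hT : T = alpha A + beta A - n) (hS : S = ∑ j, cc A i j) (hU : U = ∑ j, cc A i j ^ 2) :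
    n * S ^ 2 - 2 * n * S * T + (n - 1) * T ^ 2 + n * U ≤ n - 1 := by
  set x : V → ℝ := fun k => if k = i then n - 1 else -1 with hx
  have hcard : ∑ _j ∈ Finset.univ.erase i, (1 : ℝ) = n - 1 := by
    rw [Finset.sum_const, Finset.card_erase_of_mem (Finset.mem_univ i), Finset.card_univ,
      nsmul_eq_mul, mul_one, Nat.cast_sub, hn]
    · simp
    · exact Fintype.card_pos_iff.2 ⟨i⟩
  have split : ∀ f : V → ℝ, ∑ k, f k = f i + ∑ k ∈ Finset.univ.erase i, f k := fun f =>
    (Finset.add_sum_erase _ _ (Finset.mem_univ i)).symm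
  have hx0 : ∑ k, x k = 0 := by
    rw [split]
    have : ∑ k ∈ Finset.univ.erase i, x k = ∑ k ∈ Finset.univ.erase i, -(1 : ℝ) := by
      refine Finset.sum_congr rfl fun k hk => ?_
      simp [hx, Finset.ne_of_mem_erase hk]
    rw [this, Finset.sum_neg_distrib, hcard]
    simp [hx]
  have hx2 : ∑ k, x k ^ 2 = n * (n - 1) := by
    rw [split]
    have : ∑ k ∈ Finset.univ.erase i, x k ^ 2 = ∑ k ∈ Finset.univ.erase i, (1 : ℝ) := by
      refine Finset.sum_congr rfl fun k hk => ?_
      simp [hx, Finset.ne_of_mem_erase hk]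
    rw [this, hcard]
    simp [hx]
    ring
  have hS' : S = ∑ j ∈ Finset.univ.erase i, (b A i j - 1) := by
    rw [hS, split]
    simp only [cc, if_true, zero_add]
    refine Finset.sum_congr rfl fun k hk => ?_
    rw [if_neg (Finset.ne_of_mem_erase hk)]
  have hU' : U = ∑ j ∈ Finset.univ.erase i, (b A i j - 1) ^ 2 := by
    rw [hU, split]
    simp only [cc, if_true, ne_eq, OfNat.ofNat_ne_zero, not_false_eq_true, zero_pow, zero_add]
    refine Finset.sum_congr rfl fun k hk => ?_
    rw [if_neg (Finset.ne_of_mem_erase hk)]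
  have hopi : opS A x i = n / 2 * (S + (n - 1)) := by
    unfold opS
    rw [split]
    have : ∑ j ∈ Finset.univ.erase i, b A i j / 2 * (x i - x j)
        = n / 2 * ∑ j ∈ Finset.univ.erase i, ((b A i j - 1) + 1) := by
      rw [Finset.mul_sum]
      refine Finset.sum_congr rfl fun k hk => ?_
      simp only [hx, if_true, if_neg (Finset.ne_of_mem_erase hk)]
      ring
    rw [this, Finset.sum_add_distrib, hcard, ← hS']
    simp
  have hopk : ∀ k ∈ Finset.univ.erase i, opS A x k = -(n * b A i k / 2) := by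
    intro k hk
    have hki := Finset.ne_of_mem_erase hk
    unfold opS
    rw [split]
    have : ∑ j ∈ Finset.univ.erase i, b A k j / 2 * (x k - x j) = 0 := by
      refine Finset.sum_eq_zero fun j hj => ?_
      simp only [hx, if_neg (Finset.ne_of_mem_erase hj), if_neg hki]
      ring
    rw [this, b_comm A k i]
    simp only [hx, if_true, if_neg hki]
    ring
  have key := norm_bound A hb hs x hx0
  rw [hx2, split, hopi] at key
  have e : ∑ k ∈ Finset.univ.erase i, (opS A x k - (alpha A + beta A) / 2 * x k) ^ 2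
      = (1 / 4) * ((n - 1) * T ^ 2 - 2 * n * T * S + n ^ 2 * U) := by
    have h1 : ∑ k ∈ Finset.univ.erase i, (opS A x k - (alpha A + beta A) / 2 * x k) ^ 2
        = ∑ k ∈ Finset.univ.erase i, (1 / 4) * ((T ^ 2 * 1 - 2 * n * T * (b A i k - 1))
          + n ^ 2 * (b A i k - 1) ^ 2) := by
      refine Finset.sum_congr rfl fun k hk => ?_
      rw [hopk k hk]
      simp only [hx, if_neg (Finset.ne_of_mem_erase hk)]
      have : alpha A + beta A = T + n := by rw [hT]; ring
      rw [this]
      ring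
    rw [h1, ← Finset.mul_sum, Finset.sum_add_distrib, Finset.sum_sub_distrib, ← Finset.mul_sum,
      ← Finset.mul_sum, ← Finset.mul_sum, hcard, ← hS', ← hU']
    ring
  rw [e] at key
  have hxi : x i = n - 1 := by simp [hx]
  rw [hxi] at key
  have hab : alpha A + beta A = T + n := by rw [hT]; ring
  rw [hab] at key
  have k2 : n * (n * S ^ 2 - 2 * n * S * T + (n - 1) * T ^ 2 + n * U) ≤ n * (n - 1) := by
    nlinarith [key]
  exact le_of_mul_le_mul_left k2 hn0

lemma abs_of_sq (a T : ℝ) (ha : 0 < a) (h : (a * T) ^ 2 ≤ a ^ 2) : |T| ≤ 1 := by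
  rw [← sq_le_one_iff_abs_le_one]
  rw [mul_pow] at h
  have : 0 < a ^ 2 := by positivity
  by_contra hcon
  push Not at hcon
  nlinarith

/-- the arithmetic of the row inequality, one sign only -/
lemma arith_one (n P w : ℕ) (T : ℝ) (hn : 3 ≤ n) (hw : n = P + 1 + w)
    (hR : (((n : ℝ) - 1) * T - n * P) ^ 2 ≤ ((n : ℝ) - 1) ^ 2 - n * ((P : ℝ) * w))
    (hX : P * w < P + w) (hpar : (P + n) % 2 = 1) :
    (P = 0 ∧ |T| ≤ 1) ∨ (P = 1 ∧ |(n - 1) * T - n| ≤ 1 ∧ Even n) ∨
      (P + 1 = n ∧ |T - n| ≤ 1) := by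
  have hnr : (n : ℝ) = P + 1 + w := by rw [hw]; push_cast; ring
  have hn3 : (3 : ℝ) ≤ n := by exact_mod_cast hn
  have hn1 : 0 < (n : ℝ) - 1 := by linarith
  have cases : P = 0 ∨ P = 1 ∨ w = 0 ∨ w = 1 := by
    by_contra hcon
    push Not at hcon
    obtain ⟨u', rfl⟩ : ∃ u', P = u' + 2 := ⟨P - 2, by omega⟩
    obtain ⟨w', rfl⟩ : ∃ w', w = w' + 2 := ⟨w - 2, by omega⟩
    nlinarith [Nat.zero_le (u' * w')]
  rcases cases with h0 | h0 | h0 | h0
  · left
    subst h0
    refine ⟨rfl, abs_of_sq _ T hn1 ?_⟩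
    simpa using hR
  · right; left
    subst h0
    refine ⟨rfl, ?_, by rw [Nat.even_iff]; omega⟩
    rw [← sq_le_one_iff_abs_le_one]
    have hw' : (w : ℝ) = n - 2 := by push_cast at hnr; linarith
    rw [hw'] at hR
    push_cast at hR
    have e : ((n : ℝ) - 1) ^ 2 - n * (1 * (n - 2)) = 1 := by ring
    rw [e, mul_one] at hR
    exact hR
  · right; right
    subst h0
    refine ⟨by omega, abs_of_sq _ _ hn1 ?_⟩
    have hP : (P : ℝ) = n - 1 := by push_cast at hnr; linarith
    rw [hP] at hR
    push_cast at hR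
    have e : (((n : ℝ) - 1) * (T - n)) ^ 2 = (((n : ℝ) - 1) * T - n * (n - 1)) ^ 2 := by ring
    rw [e]
    linarith
  · omega

/-- the arithmetic of the row inequality -/
lemma arith (n P M d : ℕ) (T : ℝ) (hn : 3 ≤ n) (hu : P + M + 1 ≤ n)
    (hpar : (P : ℤ) - M = 2 * d - (n - 1))
    (h : (n : ℝ) * ((P : ℝ) - M) ^ 2 - 2 * n * ((P : ℝ) - M) * T + (n - 1) * T ^ 2
      + n * ((P : ℝ) + M) ≤ n - 1) :
    (P = 0 ∧ M = 0 ∧ |T| ≤ 1) ∨
    (P = 1 ∧ M = 0 ∧ |(n - 1) * T - n| ≤ 1 ∧ Even n) ∨
    (P = 0 ∧ M = 1 ∧ |(n - 1) * T + n| ≤ 1 ∧ Even n) ∨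
    (P + 1 = n ∧ M = 0 ∧ |T - n| ≤ 1) ∨ (P = 0 ∧ M + 1 = n ∧ |T + n| ≤ 1) := by
  obtain ⟨w, hw⟩ := Nat.exists_eq_add_of_le hu
  have hnr : (n : ℝ) = P + M + 1 + w := by rw [hw]; push_cast; ring
  have hn3 : (3 : ℝ) ≤ n := by exact_mod_cast hn
  have hw' : (w : ℝ) = n - 1 - P - M := by linarith
  have hR : (((n : ℝ) - 1) * T - n * ((P : ℝ) - M)) ^ 2
      ≤ ((n : ℝ) - 1) ^ 2 - n * (((P : ℝ) + M) * w + 4 * P * M) := by
    have h1 : 0 < (n : ℝ) - 1 := by linarith
    have h2 := mul_le_mul_of_nonneg_left h h1.le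
    rw [hw']
    nlinarith [h2]
  have hX : (n : ℝ) * (((P : ℝ) + M) * w + 4 * P * M) ≤ ((n : ℝ) - 1) ^ 2 := by
    have := sq_nonneg (((n : ℝ) - 1) * T - n * ((P : ℝ) - M))
    linarith
  have hX' : n * ((P + M) * w + 4 * P * M) < n * (n - 1) := by
    have h1 : ((n - 1 : ℕ) : ℝ) = n - 1 := by rw [Nat.cast_sub (by omega)]; simp
    have : ((n * ((P + M) * w + 4 * P * M) : ℕ) : ℝ) < ((n * (n - 1) : ℕ) : ℝ) := by
      push_cast
      rw [h1]
      nlinarith
    exact_mod_cast this
  have hX2 : (P + M) * w + 4 * P * M < n - 1 := lt_of_mul_lt_mul_left' hX'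
  have hX3 : (P + M) * w + 4 * P * M < P + M + w := by omega
  clear hX hX' hX2 h
  -- P * M = 0
  have hPM : P = 0 ∨ M = 0 := by
    by_contra hcon
    push Not at hcon
    obtain ⟨P', rfl⟩ := Nat.exists_eq_succ_of_ne_zero hcon.1
    obtain ⟨M', rfl⟩ := Nat.exists_eq_succ_of_ne_zero hcon.2
    simp only [Nat.succ_eq_add_one] at hX3
    nlinarith [Nat.zero_le (P' * M'), Nat.zero_le (P' * w), Nat.zero_le (M' * w)]
  rcases hPM with hP | hM
  · subst hP
    have hR' : (((n : ℝ) - 1) * (-T) - n * M) ^ 2 ≤ ((n : ℝ) - 1) ^ 2 - n * ((M : ℝ) * w) := by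
      push_cast at hR
      have e : (((n : ℝ) - 1) * (-T) - n * M) ^ 2 = (((n : ℝ) - 1) * T - n * (0 - M)) ^ 2 := by ring
      rw [e]
      linarith
    rcases arith_one n M w (-T) hn (by omega) hR' (by simpa using hX3) (by omega) with
      h0 | h0 | h0
    · left
      exact ⟨rfl, h0.1, by rw [← abs_neg]; exact h0.2⟩
    · right; right; left
      refine ⟨rfl, h0.1, ?_, h0.2.2⟩
      rw [← abs_neg]
      convert h0.2.1 using 2
      ring
    · right; right; right; right
      refine ⟨rfl, h0.1, ?_⟩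
      rw [← abs_neg]
      convert h0.2 using 2
      ring
  · subst hM
    have hR' : (((n : ℝ) - 1) * T - n * P) ^ 2 ≤ ((n : ℝ) - 1) ^ 2 - n * ((P : ℝ) * w) := by
      push_cast at hR
      have e : (((n : ℝ) - 1) * T - n * P) ^ 2 = (((n : ℝ) - 1) * T - n * (P - 0)) ^ 2 := by ring
      rw [e]
      linarith
    rcases arith_one n P w T hn (by omega) hR' (by simpa using hX3) (by omega) with
      h0 | h0 | h0
    · left
      exact ⟨h0.1, rfl, h0.2⟩
    · right; left
      exact ⟨h0.1, rfl, h0.2.1, h0.2.2⟩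
    · right; right; right; left
      exact ⟨h0.1, rfl, h0.2⟩

open Classical in
/-- vertices joined to `i` in both directions -/
noncomputable def Pset {V : Type*} [Fintype V] (A : V → V → Prop) (i : V) : Finset V :=
  Finset.univ.filter fun j => j ≠ i ∧ b A i j = 2

open Classical in
/-- vertices not joined to `i` -/
noncomputable def Mset {V : Type*} [Fintype V] (A : V → V → Prop) (i : V) : Finset V :=
  Finset.univ.filter fun j => j ≠ i ∧ b A i j = 0

lemma mem_Pset {V : Type*} [Fintype V] (A : V → V → Prop) (i j : V) :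
    j ∈ Pset A i ↔ j ≠ i ∧ b A i j = 2 := by simp [Pset]

lemma mem_Mset {V : Type*} [Fintype V] (A : V → V → Prop) (i j : V) :
    j ∈ Mset A i ↔ j ≠ i ∧ b A i j = 0 := by simp [Mset]

lemma sum_ind {V : Type*} [Fintype V] [DecidableEq V] (s : Finset V) :
    ∑ j, (if j ∈ s then (1 : ℝ) else 0) = s.card := by
  simp

lemma vertex_type {V : Type*} [Fintype V] (A : V → V → Prop) (hirr : ∀ v, ¬ A v v)
    (hb : IsBalanced A) (hs : spread A ≤ 1) (hn : 3 ≤ Fintype.card V) (i : V) (n : ℕ) (T : ℝ)
    (hnn : n = Fintype.card V) (hT : T = alpha A + beta A - n) :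
    (((Pset A i).card = 0 ∧ (Mset A i).card = 0 ∧ |T| ≤ 1) ∨
    ((Pset A i).card = 1 ∧ (Mset A i).card = 0 ∧ |(n - 1) * T - n| ≤ 1 ∧ Even n) ∨
    ((Pset A i).card = 0 ∧ (Mset A i).card = 1 ∧ |(n - 1) * T + n| ≤ 1 ∧ Even n) ∨
    ((Pset A i).card + 1 = n ∧ (Mset A i).card = 0 ∧ |T - n| ≤ 1) ∨
    ((Pset A i).card = 0 ∧ (Mset A i).card + 1 = n ∧ |T + n| ≤ 1)) ∧
    2 * Set.ncard {w | A i w} + (Mset A i).card = (n - 1) + (Pset A i).card := by
  classical
  have hcc : ∀ j, cc A i j = (if j ∈ Pset A i then (1 : ℝ) else 0)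
      - (if j ∈ Mset A i then (1 : ℝ) else 0) := by
    intro j
    unfold cc
    by_cases h : j = i
    · subst h; simp [mem_Pset, mem_Mset]
    · rw [if_neg h]
      rcases b_cases A i j with h0 | h0 | h0 <;> (simp [mem_Pset, mem_Mset, h, h0]; try norm_num)
  have hcc2 : ∀ j, cc A i j ^ 2 = (if j ∈ Pset A i then (1 : ℝ) else 0)
      + (if j ∈ Mset A i then (1 : ℝ) else 0) := by
    intro j
    unfold cc
    by_cases h : j = i
    · subst h; simp [mem_Pset, mem_Mset]
    · rw [if_neg h]
      rcases b_cases A i j with h0 | h0 | h0 <;> (simp [mem_Pset, mem_Mset, h, h0]; try norm_num)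
  have hS : ((Pset A i).card : ℝ) - (Mset A i).card = ∑ j, cc A i j := by
    rw [Finset.sum_congr rfl fun j _ => hcc j, Finset.sum_sub_distrib, sum_ind, sum_ind]
  have hU : ((Pset A i).card : ℝ) + (Mset A i).card = ∑ j, cc A i j ^ 2 := by
    rw [Finset.sum_congr rfl fun j _ => hcc2 j, Finset.sum_add_distrib, sum_ind, sum_ind]
  have hdisj : Disjoint (Pset A i) (Mset A i) := by
    rw [Finset.disjoint_left]
    intro j h1 h2
    rw [mem_Pset] at h1
    rw [mem_Mset] at h2
    rw [h1.2] at h2
    exact absurd h2.2 (by norm_num)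
  have hi : i ∉ Pset A i ∪ Mset A i := by
    simp [mem_Pset, mem_Mset]
  have hcardle : (Pset A i).card + (Mset A i).card + 1 ≤ n := by
    rw [← Finset.card_union_of_disjoint hdisj, ← Finset.card_insert_of_notMem hi, hnn]
    exact Finset.card_le_univ _
  have hdeg : 2 * (Set.ncard {w | A i w} : ℝ) = ∑ j, b A i j := by
    unfold b
    rw [Finset.sum_add_distrib, sum_adj_out, sum_adj_in, ← hb i]
    ring
  have hbi : b A i i = 0 := by
    unfold b; rw [adj_neg (hirr i)]; ring
  have hsumb : ∑ j, b A i j = ((n : ℝ) - 1) + ∑ j, cc A i j := by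
    have : ∀ j, b A i j = (if j = i then 0 else 1) + cc A i j := by
      intro j
      unfold cc
      by_cases h : j = i
      · subst h; simp [hbi]
      · simp [h]
    rw [Finset.sum_congr rfl fun j _ => this j, Finset.sum_add_distrib]
    congr 1
    have h2 : ∀ j, (if j = i then (0 : ℝ) else 1) = 1 - if j = i then (1 : ℝ) else 0 := by
      intro j; split_ifs <;> norm_num
    rw [Finset.sum_congr rfl fun j _ => h2 j, Finset.sum_sub_distrib]
    simp [hnn]
  have hpar : ((Pset A i).card : ℤ) - (Mset A i).card = 2 * (Set.ncard {w | A i w} : ℕ) - (n - 1) := by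
    have : ((Pset A i).card : ℝ) - (Mset A i).card = 2 * (Set.ncard {w | A i w} : ℝ) - (n - 1) := by
      rw [hS, hdeg, hsumb]; ring
    exact_mod_cast this
  refine ⟨?_, by omega⟩
  have hrow := row_bound A hb hs i n T (((Pset A i).card : ℝ) - (Mset A i).card)
    (((Pset A i).card : ℝ) + (Mset A i).card) (by rw [hnn]) (by
      have : 0 < n := by omega
      exact_mod_cast this) hT hS hU
  exact arith n _ _ (Set.ncard {w | A i w}) T (by omega) hcardle hpar hrow

/-- **Structure of balanced digraphs of spread at most one.** Either all pairs of distinct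
vertices are joined by the same number of arcs, or the order is even and at least four and, for
some `σ = ± 1`, every vertex `i` has exactly one partner joined to it by `1 + σ` arcs, all other
pairs being joined by exactly one arc. -/
theorem structure_le_one {V : Type*} [Fintype V] (A : V → V → Prop) (hirr : ∀ v, ¬ A v v)
    (hb : IsBalanced A) (hs : spread A ≤ 1) (hn : 2 ≤ Fintype.card V) :
    (∃ c, ∀ i j, i ≠ j → b A i j = c) ∨
    (4 ≤ Fintype.card V ∧ Even (Fintype.card V) ∧ ∃ σ : ℝ, (σ = 1 ∨ σ = -1) ∧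
      (∀ i, 2 * (Set.ncard {w | A i w} : ℝ) = Fintype.card V - 1 + σ) ∧
      ∀ i, ∃ j, j ≠ i ∧ b A i j = 1 + σ ∧ ∀ k, k ≠ i → k ≠ j → b A i k = 1) := by
  classical
  rcases hn.eq_or_lt with h2 | h3
  · left
    obtain ⟨x, y, hxy, hu⟩ := Finset.card_eq_two.1 (Finset.card_univ.trans h2.symm)
    have hmem : ∀ z : V, z = x ∨ z = y := by
      intro z
      have : z ∈ (Finset.univ : Finset V) := Finset.mem_univ z
      rw [hu] at this
      simpa using this
    refine ⟨b A x y, fun i j hij => ?_⟩
    rcases hmem i with rfl | rfl <;> rcases hmem j with rfl | rfl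
    · exact absurd rfl hij
    · rfl
    · exact b_comm _ _ _
    · exact absurd rfl hij
  have h3' : 3 ≤ Fintype.card V := h3
  obtain ⟨i0⟩ : Nonempty V := Fintype.card_pos_iff.1 (by omega)
  set n := Fintype.card V with hnn
  set T : ℝ := alpha A + beta A - n with hT
  have hty := fun i => vertex_type A hirr hb hs h3' i n T hnn hT
  have hn3 : (3 : ℝ) ≤ n := by exact_mod_cast h3'
  have hP0 : ∀ i, (Pset A i).card = 0 → ∀ j, j ≠ i → b A i j ≠ 2 := by
    intro i h j hj h'
    have : j ∈ Pset A i := (mem_Pset A i j).2 ⟨hj, h'⟩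
    rw [Finset.card_eq_zero] at h
    rw [h] at this
    simp at this
  have hM0 : ∀ i, (Mset A i).card = 0 → ∀ j, j ≠ i → b A i j ≠ 0 := by
    intro i h j hj h'
    have : j ∈ Mset A i := (mem_Mset A i j).2 ⟨hj, h'⟩
    rw [Finset.card_eq_zero] at h
    rw [h] at this
    simp at this
  have hfullP : ∀ i, (Pset A i).card + 1 = n → ∀ j, j ≠ i → b A i j = 2 := by
    intro i h j hj
    have hi : i ∉ Pset A i := by simp [mem_Pset]
    have h1 : (insert i (Pset A i)).card = Fintype.card V := by
      rw [Finset.card_insert_of_notMem hi]; omega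
    have h2 : j ∈ insert i (Pset A i) := by
      rw [Finset.eq_univ_of_card _ h1]; exact Finset.mem_univ _
    rw [Finset.mem_insert] at h2
    rcases h2 with h2 | h2
    · exact absurd h2 hj
    · exact ((mem_Pset A i j).1 h2).2
  have hfullM : ∀ i, (Mset A i).card + 1 = n → ∀ j, j ≠ i → b A i j = 0 := by
    intro i h j hj
    have hi : i ∉ Mset A i := by simp [mem_Mset]
    have h1 : (insert i (Mset A i)).card = Fintype.card V := by
      rw [Finset.card_insert_of_notMem hi]; omega
    have h2 : j ∈ insert i (Mset A i) := by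
      rw [Finset.eq_univ_of_card _ h1]; exact Finset.mem_univ _
    rw [Finset.mem_insert] at h2
    rcases h2 with h2 | h2
    · exact absurd h2 hj
    · exact ((mem_Mset A i j).1 h2).2
  rcases (hty i0).1 with t0 | t0 | t0 | t0 | t0
  · -- all vertices have type (0,0)
    left
    refine ⟨1, fun i j hij => ?_⟩
    obtain ⟨hp00, hm00, hT0⟩ := t0
    rw [abs_le] at hT0
    have hi := hty i
    have h00 : (Pset A i).card = 0 ∧ (Mset A i).card = 0 := by
      rcases hi.1 with h | h | h | h | h
      · exact ⟨h.1, h.2.1⟩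
      · -- P = 1 : then n even; but i0 has type (0,0), parity
        have p1 := hi.2
        have p2 := (hty i0).2
        omega
      · have p1 := hi.2
        have p2 := (hty i0).2
        omega
      · have := abs_le.1 h.2.2
        linarith
      · have := abs_le.1 h.2.2
        linarith
    rcases b_cases A i j with h | h | h
    · exact absurd h (hM0 i h00.2 j (Ne.symm hij))
    · exact h
    · exact absurd h (hP0 i h00.1 j (Ne.symm hij))
  · -- type (1,0)
    right
    obtain ⟨hp, hm, hT0, heven⟩ := t0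
    have hT1 := abs_le.1 hT0
    have h4 : 4 ≤ n := by
      rcases heven with ⟨r, hr⟩
      omega
    have h4' : (4 : ℝ) ≤ n := by exact_mod_cast h4
    have hTlow : 0 < T := by
      by_contra hcon
      push Not at hcon
      nlinarith
    have hThigh : T < n - 1 := by
      by_contra hcon
      push Not at hcon
      nlinarith
    have hall : ∀ i, (Pset A i).card = 1 ∧ (Mset A i).card = 0 := by
      intro i
      have hi := hty i
      rcases hi.1 with h | h | h | h | h
      · have p1 := hi.2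
        have p2 := (hty i0).2
        omega
      · exact ⟨h.1, h.2.1⟩
      · have := abs_le.1 h.2.2.1
        nlinarith
      · have := abs_le.1 h.2.2
        linarith
      · have := abs_le.1 h.2.2
        linarith
    refine ⟨h4, heven, 1, Or.inl rfl, fun i => ?_, fun i => ?_⟩
    · have h1 := (hty i).2
      rw [(hall i).1, (hall i).2] at h1
      have h2 : 2 * Set.ncard {w | A i w} = n := by omega
      have h3 : (2 : ℝ) * (Set.ncard {w | A i w} : ℝ) = n := by exact_mod_cast h2
      rw [h3]; ring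
    · obtain ⟨j, hj⟩ := Finset.card_eq_one.1 (hall i).1
      have hj' : j ∈ Pset A i := by rw [hj]; simp
      rw [mem_Pset] at hj'
      refine ⟨j, hj'.1, by rw [hj'.2]; norm_num, fun k hk hkj => ?_⟩
      rcases b_cases A i k with h | h | h
      · exact absurd h (hM0 i (hall i).2 k hk)
      · exact h
      · have : k ∈ Pset A i := (mem_Pset A i k).2 ⟨hk, h⟩
        rw [hj, Finset.mem_singleton] at this
        exact absurd this hkj
  · -- type (0,1)
    right
    obtain ⟨hp, hm, hT0, heven⟩ := t0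
    have hT1 := abs_le.1 hT0
    have h4 : 4 ≤ n := by
      rcases heven with ⟨r, hr⟩
      omega
    have h4' : (4 : ℝ) ≤ n := by exact_mod_cast h4
    have hTlow : T < 0 := by
      by_contra hcon
      push Not at hcon
      nlinarith
    have hThigh : -(n - 1) < T := by
      by_contra hcon
      push Not at hcon
      nlinarith
    have hall : ∀ i, (Pset A i).card = 0 ∧ (Mset A i).card = 1 := by
      intro i
      have hi := hty i
      rcases hi.1 with h | h | h | h | h
      · have p1 := hi.2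
        have p2 := (hty i0).2
        omega
      · have := abs_le.1 h.2.2.1
        nlinarith
      · exact ⟨h.1, h.2.1⟩
      · have := abs_le.1 h.2.2
        linarith
      · have := abs_le.1 h.2.2
        linarith
    refine ⟨h4, heven, -1, Or.inr rfl, fun i => ?_, fun i => ?_⟩
    · have h1 := (hty i).2
      rw [(hall i).1, (hall i).2] at h1
      have h2 : 2 * Set.ncard {w | A i w} + 2 = n := by omega
      have h3 : (2 : ℝ) * (Set.ncard {w | A i w} : ℝ) + 2 = n := by exact_mod_cast h2
      linarith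
    · obtain ⟨j, hj⟩ := Finset.card_eq_one.1 (hall i).2
      have hj' : j ∈ Mset A i := by rw [hj]; simp
      rw [mem_Mset] at hj'
      refine ⟨j, hj'.1, by rw [hj'.2]; norm_num, fun k hk hkj => ?_⟩
      rcases b_cases A i k with h | h | h
      · have : k ∈ Mset A i := (mem_Mset A i k).2 ⟨hk, h⟩
        rw [hj, Finset.mem_singleton] at this
        exact absurd this hkj
      · exact h
      · exact absurd h (hP0 i (hall i).1 k hk)
  · -- all joined by two arcs
    left
    refine ⟨2, fun i j hij => ?_⟩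
    obtain ⟨hp, -, hT0⟩ := t0
    rw [abs_le] at hT0
    by_cases hi0 : i = i0
    · subst hi0; exact hfullP i hp j (Ne.symm hij)
    have hii0 : b A i i0 = 2 := by rw [b_comm]; exact hfullP i0 hp i hi0
    have hi := hty i
    have hpi : (Pset A i).card + 1 = n := by
      rcases hi.1 with h | h | h | h | h
      · exact absurd hii0 (hP0 i h.1 i0 (Ne.symm hi0))
      · have := abs_le.1 h.2.2.1
        have h4 : 4 ≤ n := by
          rcases h.2.2.2 with ⟨r, hr⟩
          omega
        have h4' : (4 : ℝ) ≤ n := by exact_mod_cast h4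
        nlinarith
      · exact absurd hii0 (hP0 i h.1 i0 (Ne.symm hi0))
      · exact h.1
      · exact absurd hii0 (hP0 i h.1 i0 (Ne.symm hi0))
    exact hfullP i hpi j (Ne.symm hij)
  · -- no arcs
    left
    refine ⟨0, fun i j hij => ?_⟩
    obtain ⟨-, hp, hT0⟩ := t0
    rw [abs_le] at hT0
    by_cases hi0 : i = i0
    · subst hi0; exact hfullM i hp j (Ne.symm hij)
    have hii0 : b A i i0 = 0 := by rw [b_comm]; exact hfullM i0 hp i hi0
    have hi := hty i
    have hpi : (Mset A i).card + 1 = n := by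
      rcases hi.1 with h | h | h | h | h
      · exact absurd hii0 (hM0 i h.2.1 i0 (Ne.symm hi0))
      · exact absurd hii0 (hM0 i h.2.1 i0 (Ne.symm hi0))
      · have := abs_le.1 h.2.2.1
        have h4 : 4 ≤ n := by
          rcases h.2.2.2 with ⟨r, hr⟩
          omega
        have h4' : (4 : ℝ) ≤ n := by exact_mod_cast h4
        nlinarith
      · exact absurd hii0 (hM0 i h.2.1 i0 (Ne.symm hi0))
      · exact h.2.1
    exact hfullM i hpi j (Ne.symm hij)

end Pool.Agent.V11126.LapSpread
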